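import Mathlib

/-!
# Span-avoiding families of cube vertices: definitions and duality

A vertex of the cube is coded by its support `S : Finset (Fin n)`.
-/

open Finset

namespace H75MP939

/-- The 0/1 vector with support `S`. -/
def vec {n : ℕ} (S : Finset (Fin n)) : Fin n → ℝ := fun i => if i ∈ S then 1 else 0

/-- `M` is a set of nonzero vertices of weight at most `k` whose real span contains no unit
vector. -/
def Adm (n k : ℕ) (M : Finset (Finset (Fin n))) : Prop :=
  (∀ S ∈ M, S ≠ ∅ ∧ S.card ≤ k) ∧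
  ∀ i : Fin n, (Pi.single i (1 : ℝ) : Fin n → ℝ) ∉
    Submodule.span ℝ ((fun S => vec S) '' (M : Set (Finset (Fin n))))

/-- The largest size of an admissible family. -/
noncomputable def N (n k : ℕ) : ℕ := sSup {m | ∃ M : Finset (Finset (Fin n)), Adm n k M ∧ M.card = m}

/-- The size of the balanced construction (for even `k`). -/
def m2 (n k : ℕ) : ℕ := ∑ i ∈ Icc 1 (k / 2), ((n + 1) / 2).choose i * (n / 2).choose i

/-- The sets of size at most `k` with zero sum (the empty set included). -/
noncomputable def Z (n k : ℕ) (a : Fin n → ℝ) : Finset (Finset (Fin n)) :=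
  univ.filter (fun S => S.card ≤ k ∧ ∑ i ∈ S, a i = 0)

lemma mem_Z {n k : ℕ} {a : Fin n → ℝ} {S : Finset (Fin n)} :
    S ∈ Z n k a ↔ S.card ≤ k ∧ ∑ i ∈ S, a i = 0 := by
  simp [Z]

lemma empty_mem_Z {n k : ℕ} {a : Fin n → ℝ} : ∅ ∈ Z n k a := by
  simp [mem_Z]

/-- A linear functional evaluated on a 0/1 vector. -/
lemma lin_vec {n : ℕ} (f : (Fin n → ℝ) →ₗ[ℝ] ℝ) (S : Finset (Fin n)) :
    f (vec S) = ∑ i ∈ S, f (Pi.single i 1) := by
  have h : vec S = ∑ i ∈ S, Pi.single i (1 : ℝ) := by
    funext j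
    simp only [vec, Finset.sum_apply]
    rw [Finset.sum_pi_single]
  rw [h, map_sum]

/-- Duality, hard direction. -/
lemma exists_weight {n k : ℕ} {M : Finset (Finset (Fin n))} (hM : Adm n k M) :
    ∃ a : Fin n → ℝ, (∀ i, a i ≠ 0) ∧ M.card + 1 ≤ (Z n k a).card := by
  set V := Submodule.span ℝ ((fun S => vec S) '' (M : Set (Finset (Fin n)))) with hV
  -- the space of functionals vanishing on V
  let D : Submodule ℝ ((Fin n → ℝ) →ₗ[ℝ] ℝ) :=
    { carrier := {f | ∀ v ∈ V, f v = 0}
      add_mem' := by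
        intro f g hf hg v hv
        simp [hf v hv, hg v hv]
      zero_mem' := by intro v _; simp
      smul_mem' := by
        intro c f hf v hv
        simp [hf v hv] }
  let E : Fin n → Submodule ℝ D := fun i =>
    { carrier := {f | f.1 (Pi.single i 1) = 0}
      add_mem' := by
        intro f g hf hg
        simp only [Set.mem_ofPred_eq] at hf hg ⊢
        simp [hf, hg]
      zero_mem' := by simp
      smul_mem' := by
        intro c f hf
        simp only [Set.mem_ofPred_eq] at hf ⊢
        simp [hf] }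
  have hE : ¬ ((⋃ i, (E i : Set D)) = Set.univ) := by
    intro h
    obtain ⟨i, hi⟩ := Subspace.exists_eq_top_of_iUnion_eq_univ (k := ℝ) (E := D) (p := E) h
    obtain ⟨f, hf1, hf2⟩ := Submodule.exists_le_ker_of_notMem (hM.2 i)
    have hfD : f ∈ D := fun v hv => by
      have := hf2 hv
      simpa using this
    have : (⟨f, hfD⟩ : D) ∈ E i := by rw [hi]; trivial
    exact hf1 this
  rw [Set.eq_univ_iff_forall] at hE
  push Not at hE
  obtain ⟨f, hf⟩ := hE
  refine ⟨fun i => f.1 (Pi.single i 1), ?_, ?_⟩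
  · intro i hi
    apply hf
    exact Set.mem_iUnion.2 ⟨i, hi⟩
  · have h1 : insert ∅ M ⊆ Z n k (fun i => f.1 (Pi.single i 1)) := by
      intro S hS
      rw [Finset.mem_insert] at hS
      rcases hS with rfl | hS
      · exact empty_mem_Z
      · rw [mem_Z]
        refine ⟨(hM.1 S hS).2, ?_⟩
        rw [← lin_vec]
        apply f.2
        exact Submodule.subset_span ⟨S, hS, rfl⟩
    have h2 : ∅ ∉ M := fun h => (hM.1 ∅ h).1 rfl
    calc M.card + 1 = (insert ∅ M).card := (Finset.card_insert_of_notMem h2).symm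
      _ ≤ _ := Finset.card_le_card h1

/-- Duality, easy direction. -/
lemma adm_of_weight {n k : ℕ} (a : Fin n → ℝ) (ha : ∀ i, a i ≠ 0) :
    Adm n k ((Z n k a).erase ∅) := by
  constructor
  · intro S hS
    rw [Finset.mem_erase, mem_Z] at hS
    exact ⟨hS.1, hS.2.1⟩
  · intro i hi
    let f : (Fin n → ℝ) →ₗ[ℝ] ℝ :=
      { toFun := fun x => ∑ j, a j * x j
        map_add' := by intro x y; simp [mul_add, Finset.sum_add_distrib]
        map_smul' := by
          intro c x
          simp only [Pi.smul_apply, smul_eq_mul, RingHom.id_apply, Finset.mul_sum]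
          exact Finset.sum_congr rfl fun j _ => by ring }
    have hle : Submodule.span ℝ ((fun S => vec S) ''
        (((Z n k a).erase ∅ : Finset (Finset (Fin n))) : Set (Finset (Fin n)))) ≤ LinearMap.ker f := by
      rw [Submodule.span_le]
      rintro _ ⟨S, hS, rfl⟩
      rw [Finset.mem_coe, Finset.mem_erase, mem_Z] at hS
      show f (vec S) = 0
      rw [lin_vec]
      rw [← hS.2.2]
      refine Finset.sum_congr rfl fun j _ => ?_
      show ∑ l, a l * (Pi.single j (1 : ℝ) : Fin n → ℝ) l = a j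
      simp [Pi.single_apply]
    have h1 := hle hi
    have h2 : f (Pi.single i 1) = 0 := h1
    have h3 : f (Pi.single i 1) = a i := by
      show ∑ l, a l * (Pi.single i (1 : ℝ) : Fin n → ℝ) l = a i
      simp [Pi.single_apply]
    exact ha i (h3.symm.trans h2)

lemma bddAbove_N (n k : ℕ) :
    BddAbove {m | ∃ M : Finset (Finset (Fin n)), Adm n k M ∧ M.card = m} := by
  refine ⟨Fintype.card (Finset (Fin n)), ?_⟩
  rintro m ⟨M, _, rfl⟩
  exact Finset.card_le_univ M

lemma N_le {n k B : ℕ} (h : ∀ a : Fin n → ℝ, (∀ i, a i ≠ 0) → (Z n k a).card ≤ B + 1) :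
    N n k ≤ B := by
  apply csSup_le'
  rintro m ⟨M, hM, rfl⟩
  obtain ⟨a, ha, h1⟩ := exists_weight hM
  have := h a ha
  omega

lemma le_N {n k : ℕ} {M : Finset (Finset (Fin n))} (hM : Adm n k M) : M.card ≤ N n k :=
  le_csSup (bddAbove_N n k) ⟨M, hM, rfl⟩

lemma le_N_of_weight {n k : ℕ} (a : Fin n → ℝ) (ha : ∀ i, a i ≠ 0) :
    (Z n k a).card ≤ N n k + 1 := by
  have := le_N (adm_of_weight (k := k) a ha)
  rw [Finset.card_erase_of_mem empty_mem_Z] at this
  omega

/-- The maximum is attained. -/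
lemma exists_N (n k : ℕ) : ∃ M : Finset (Finset (Fin n)), Adm n k M ∧ M.card = N n k := by
  have hne : {m | ∃ M : Finset (Finset (Fin n)), Adm n k M ∧ M.card = m}.Nonempty := by
    refine ⟨_, _, adm_of_weight (n := n) (k := k) (fun _ => 1) (fun _ => one_ne_zero), rfl⟩
  exact Nat.sSup_mem hne (bddAbove_N n k)

end H75MP939
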