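import Pool.Agent.Lib.MP_939498_co.h75A

/-!
# Counting zero-sum sets: four antichains, and the two-valued case
-/

open Finset

namespace H75MP939

/-! ## Monotonicity of binomial coefficients -/

lemma choose_mono_half {N a b : ℕ} (hab : a ≤ b) (hb : 2 * b ≤ N + 1) :
    N.choose a ≤ N.choose b := by
  induction b, hab using Nat.le_induction with
  | base => exact le_rfl
  | succ b hab ih =>
    have h1 := ih (by omega)
    rcases Nat.lt_or_ge b (N / 2) with h | h
    · exact h1.trans (Nat.choose_le_succ_of_lt_half_left h)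
    · -- 2 * b + 2 ≤ N + 1, so b < N / 2 or N = 2b+1
      have h3 : N = 2 * b + 1 := by omega
      subst h3
      have : (2 * b + 1).choose (b + 1) = (2 * b + 1).choose b := by
        rw [← Nat.choose_symm_of_eq_add]
        omega
      rw [this]; exact h1

lemma choose_cmp {N i j : ℕ} (hi : i ≤ N) (h : |(2 * i : ℤ) - N| ≤ |(2 * j : ℤ) - N|) :
    N.choose j ≤ N.choose i := by
  rcases Nat.lt_or_ge N j with hj | hj
  · rw [Nat.choose_eq_zero_of_lt hj]; exact Nat.zero_le _
  have key : ∀ i' j' : ℕ, 2 * i' ≤ N → 2 * j' ≤ N → |(2 * i' : ℤ) - N| ≤ |(2 * j' : ℤ) - N| →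
      N.choose j' ≤ N.choose i' := by
    intro i' j' h1 h2 h3
    apply choose_mono_half _ (by omega)
    rw [abs_of_nonpos (by omega), abs_of_nonpos (by omega)] at h3
    omega
  rcases le_total (2 * i) N with h1 | h1 <;> rcases le_total (2 * j) N with h2 | h2
  · exact key i j h1 h2 h
  · rw [← Nat.choose_symm hj]
    apply key i (N - j) h1 (by omega)
    rw [abs_of_nonpos (by omega), abs_of_nonneg (by omega)] at h
    rw [abs_of_nonpos (by omega), abs_of_nonpos (by omega)]
    omega
  · rw [← Nat.choose_symm hi]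
    apply key (N - i) j (by omega) h2
    rw [abs_of_nonneg (by omega), abs_of_nonpos (by omega)] at h
    rw [abs_of_nonpos (by omega), abs_of_nonpos (by omega)]
    omega
  · rw [← Nat.choose_symm hi, ← Nat.choose_symm hj]
    apply key (N - i) (N - j) (by omega) (by omega)
    rw [abs_of_nonneg (by omega), abs_of_nonneg (by omega)] at h
    rw [abs_of_nonpos (by omega), abs_of_nonpos (by omega)]
    omega

/-! ## Unions of four antichains -/

/-- If the LYM sum of a family is at most `4`, then its size is at most the sum of the four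
largest binomial coefficients. -/
lemma card_le_top4 {α : Type*} [Fintype α] [DecidableEq α] (G : Finset (Finset α))
    (hG : ∑ U ∈ G, (1 : ℝ) / ((Fintype.card α).choose U.card) ≤ 4) :
    G.card ≤ ∑ i ∈ Icc ((Fintype.card α - 3) / 2) ((Fintype.card α - 3) / 2 + 3),
      (Fintype.card α).choose i := by
  set N := Fintype.card α with hN
  set s := (N - 3) / 2 with hs
  have hcardle : ∀ U : Finset α, U.card ≤ N := fun U => Finset.card_le_univ U
  rcases Nat.lt_or_ge N 3 with h3 | h3
  · have hs0 : s = 0 := by omega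
    have h1 : G.card ≤ 2 ^ N := by
      calc G.card ≤ Fintype.card (Finset α) := Finset.card_le_univ G
        _ = 2 ^ N := by rw [Fintype.card_finset]
    refine h1.trans ?_
    rw [← Nat.sum_range_choose, hs0]
    apply Finset.sum_le_sum_of_subset
    intro i hi
    rw [Finset.mem_range] at hi
    rw [Finset.mem_Icc]
    omega
  · set c : ℕ := min (N.choose s) (N.choose (s + 3)) with hc
    have hpos : ∀ U : Finset α, (0 : ℝ) < (N.choose U.card : ℝ) := fun U => by
      exact_mod_cast Nat.choose_pos (hcardle U)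
    have hin : ∀ i ∈ Icc s (s + 3), c ≤ N.choose i := by
      intro i hi
      rw [Finset.mem_Icc] at hi
      rcases le_total (2 * i) N with h | h
      · refine (min_le_left _ _).trans ?_
        exact choose_mono_half hi.1 (by omega)
      · refine (min_le_right _ _).trans ?_
        apply choose_cmp (by omega)
        rw [abs_of_nonneg (by omega), abs_of_nonneg (by omega)]
        omega
    have hout : ∀ j, j ∉ Icc s (s + 3) → N.choose j ≤ c := by
      intro j hj
      rw [Finset.mem_Icc, not_and_or, not_le, not_le] at hj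
      apply le_min
      · apply choose_cmp (by omega)
        rcases hj with hj | hj
        · rw [abs_of_nonpos (by omega), abs_of_nonpos (by omega)]; omega
        · rw [abs_of_nonpos (by omega), abs_of_nonneg (by omega)]; omega
      · apply choose_cmp (by omega)
        rcases hj with hj | hj
        · rw [abs_of_nonneg (by omega), abs_of_nonpos (by omega)]; omega
        · rw [abs_of_nonneg (by omega), abs_of_nonneg (by omega)]; omega
    have hcpos : (0 : ℝ) ≤ c := Nat.cast_nonneg _
    -- main estimate
    have h1 : (G.card : ℝ) ≤ ∑ U ∈ G, (c : ℝ) * (1 / (N.choose U.card : ℝ)) +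
        ∑ U ∈ G.filter (fun U => U.card ∈ Icc s (s + 3)), (1 - (c : ℝ) / (N.choose U.card : ℝ)) := by
      rw [Finset.sum_filter, ← Finset.sum_add_distrib, Finset.card_eq_sum_ones, Nat.cast_sum]
      apply Finset.sum_le_sum
      intro U _
      split_ifs with h
      · push_cast
        rw [mul_one_div]
        linarith
      · push_cast
        rw [mul_one_div, add_zero, le_div_iff₀ (hpos U), one_mul]
        exact_mod_cast hout _ h
    have h2 : ∑ U ∈ G.filter (fun U => U.card ∈ Icc s (s + 3)),
        (1 - (c : ℝ) / (N.choose U.card : ℝ)) ≤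
        ∑ U ∈ (univ : Finset (Finset α)).filter (fun U => U.card ∈ Icc s (s + 3)),
        (1 - (c : ℝ) / (N.choose U.card : ℝ)) := by
      apply Finset.sum_le_sum_of_subset_of_nonneg
      · exact Finset.filter_subset_filter _ (Finset.subset_univ _)
      · intro U hU _
        rw [Finset.mem_filter] at hU
        rw [sub_nonneg, div_le_one (hpos U)]
        exact_mod_cast hin _ hU.2
    have h3' : ∑ U ∈ (univ : Finset (Finset α)).filter (fun U => U.card ∈ Icc s (s + 3)),
        (1 - (c : ℝ) / (N.choose U.card : ℝ)) =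
        ∑ i ∈ Icc s (s + 3), ((N.choose i : ℝ) - c) := by
      rw [← Finset.sum_fiberwise_of_maps_to (s := (univ : Finset (Finset α)).filter
        (fun U => U.card ∈ Icc s (s + 3))) (t := Icc s (s + 3)) (g := fun U => U.card)
        (fun U hU => (Finset.mem_filter.1 hU).2)]
      apply Finset.sum_congr rfl
      intro i hi
      have hset : (((univ : Finset (Finset α)).filter (fun U => U.card ∈ Icc s (s + 3))).filter
          (fun U => U.card = i)) = powersetCard i univ := by
        ext U
        simp only [Finset.mem_filter, Finset.mem_univ, true_and, Finset.mem_powersetCard,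
          Finset.subset_univ]
        constructor
        · exact fun h => h.2
        · intro h
          exact ⟨by rw [h]; exact hi, h⟩
      rw [hset]
      have hconst : ∀ U ∈ powersetCard i (univ : Finset α),
          (1 - (c : ℝ) / (N.choose U.card : ℝ)) = 1 - (c : ℝ) / (N.choose i : ℝ) := by
        intro U hU
        rw [(Finset.mem_powersetCard.1 hU).2]
      rw [Finset.sum_congr rfl hconst, Finset.sum_const, Finset.card_powersetCard,
        Finset.card_univ, ← hN, nsmul_eq_mul]
      have hi' : i ≤ N := by rw [Finset.mem_Icc] at hi; omega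
      have : (N.choose i : ℝ) ≠ 0 := by exact_mod_cast (Nat.choose_pos hi').ne'
      field_simp
    have h4 : ∑ U ∈ G, (c : ℝ) * (1 / (N.choose U.card : ℝ)) ≤ 4 * c := by
      rw [← Finset.mul_sum]
      nlinarith
    have h5 : ∑ i ∈ Icc s (s + 3), ((N.choose i : ℝ) - c) =
        ((∑ i ∈ Icc s (s + 3), N.choose i : ℕ) : ℝ) - 4 * c := by
      rw [Finset.sum_sub_distrib, Finset.sum_const, Nat.card_Icc, nsmul_eq_mul]
      push_cast
      have : ((s + 3 + 1 - s : ℕ) : ℝ) = 4 := by
        have : s + 3 + 1 - s = 4 := by omega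
        rw [this]; norm_num
      rw [this]
    have h6 : (G.card : ℝ) ≤ ((∑ i ∈ Icc s (s + 3), N.choose i : ℕ) : ℝ) := by
      linarith
    exact_mod_cast h6

/-- The family of sets whose weight lies in a set of at most four reals. -/
lemma card_levels_le {α : Type*} [Fintype α] [DecidableEq α] (w : α → ℝ) (hw : ∀ i, 0 < w i)
    (C : Finset ℝ) (hC : C.card ≤ 4) (G : Finset (Finset α))
    (hG : ∀ U ∈ G, ∑ i ∈ U, w i ∈ C) :
    G.card ≤ ∑ i ∈ Icc ((Fintype.card α - 3) / 2) ((Fintype.card α - 3) / 2 + 3),
      (Fintype.card α).choose i := by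
  apply card_le_top4
  classical
  rw [← Finset.sum_fiberwise_of_maps_to hG]
  have h1 : ∀ c ∈ C, ∑ U ∈ G.filter (fun U => ∑ i ∈ U, w i = c),
      (1 : ℝ) / ((Fintype.card α).choose U.card) ≤ 1 := by
    intro c _
    have hanti : IsAntichain (· ⊆ ·)
        ((G.filter (fun U => ∑ i ∈ U, w i = c) : Finset (Finset α)) : Set (Finset α)) := by
      intro U hU V hV hne hsub
      rw [Finset.mem_coe, Finset.mem_filter] at hU hV
      have hss : U ⊂ V := Finset.ssubset_iff_subset_ne.2 ⟨hsub, hne⟩
      obtain ⟨x, hxV, hxU⟩ := Finset.exists_of_ssubset hss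
      have : ∑ i ∈ U, w i < ∑ i ∈ V, w i :=
        Finset.sum_lt_sum_of_subset hsub hxV hxU (hw x) (fun j _ _ => (hw j).le)
      rw [hU.2, hV.2] at this
      exact lt_irrefl _ this
    have := lubell_yamamoto_meshalkin_inequality_sum_inv_choose (𝕜 := ℝ) hanti
    simpa [one_div] using this
  calc ∑ c ∈ C, ∑ U ∈ G.filter (fun U => ∑ i ∈ U, w i = c),
      (1 : ℝ) / ((Fintype.card α).choose U.card) ≤ ∑ c ∈ C, 1 := Finset.sum_le_sum h1
    _ = C.card := by simp
    _ ≤ 4 := by exact_mod_cast hC

/-! ## Switching the signs -/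

section switch

variable {n : ℕ} (a : Fin n → ℝ)

/-- The set of negative coordinates. -/
noncomputable def Neg : Finset (Fin n) := univ.filter (fun i => a i < 0)

lemma sum_abs_symmDiff (S : Finset (Fin n)) :
    ∑ i ∈ symmDiff S (Neg a), |a i| = ∑ i ∈ Neg a, |a i| + ∑ i ∈ S, a i := by
  have key : ∀ (T : Finset (Fin n)) (f : Fin n → ℝ),
      ∑ i ∈ T, f i = ∑ i, if i ∈ T then f i else 0 := by
    intro T f
    rw [Finset.sum_ite_mem, Finset.univ_inter]
  rw [key (symmDiff S (Neg a)), key (Neg a), key S, ← Finset.sum_add_distrib]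
  apply Finset.sum_congr rfl
  intro i _
  have hQ : i ∈ Neg a ↔ a i < 0 := by simp [Neg]
  by_cases h1 : i ∈ S <;> by_cases h2 : a i < 0
  · have : i ∉ symmDiff S (Neg a) := by
      rw [Finset.mem_symmDiff]; simp [h1, hQ.2 h2]
    simp only [this, h1, hQ.2 h2, if_true, if_false]
    rw [abs_of_neg h2]; ring
  · have hn : i ∉ Neg a := fun h => h2 (hQ.1 h)
    have : i ∈ symmDiff S (Neg a) := by
      rw [Finset.mem_symmDiff]; simp [h1, hn]
    simp only [this, h1, hn, if_true, if_false]
    rw [abs_of_nonneg (not_lt.1 h2)]; ring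
  · have : i ∈ symmDiff S (Neg a) := by
      rw [Finset.mem_symmDiff]; simp [h1, hQ.2 h2]
    simp only [this, h1, hQ.2 h2, if_true, if_false]
    ring
  · have hn : i ∉ Neg a := fun h => h2 (hQ.1 h)
    have : i ∉ symmDiff S (Neg a) := by
      rw [Finset.mem_symmDiff]; simp [h1, hn]
    simp only [this, h1, hn, if_false]
    ring

lemma sum_split (w : Fin n → ℝ) {e x : Fin n} (hex : e ≠ x) (T : Finset (Fin n)) :
    ∑ i ∈ T, w i = ∑ u ∈ T.subtype (fun i => i ≠ e ∧ i ≠ x), w u.1 +
      (if e ∈ T then w e else 0) + (if x ∈ T then w x else 0) := by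
  have h1 : ∑ u ∈ T.subtype (fun i => i ≠ e ∧ i ≠ x), w u.1 =
      ∑ i ∈ T.filter (fun i => i ≠ e ∧ i ≠ x), w i := by
    rw [Finset.sum_subtype_eq_sum_filter]
  have key : ∀ (T : Finset (Fin n)) (f : Fin n → ℝ),
      ∑ i ∈ T, f i = ∑ i, if i ∈ T then f i else 0 := by
    intro T f
    rw [Finset.sum_ite_mem, Finset.univ_inter]
  rw [h1, Finset.sum_filter, key T w, key T]
  have h2 : (if e ∈ T then w e else 0) = ∑ i, if i = e then (if i ∈ T then w i else 0) else 0 := by
    rw [Finset.sum_ite_eq' univ e]
    simp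
  have h3 : (if x ∈ T then w x else 0) = ∑ i, if i = x then (if i ∈ T then w i else 0) else 0 := by
    rw [Finset.sum_ite_eq' univ x]
    simp
  rw [h2, h3, ← Finset.sum_add_distrib, ← Finset.sum_add_distrib]
  apply Finset.sum_congr rfl
  intro i _
  by_cases hi : i ∈ T <;> by_cases h4 : i = e <;> by_cases h5 : i = x
  all_goals simp_all

/-- If two coordinates have different absolute values, there are few zero-sum sets. -/
lemma card_Z_le_of_ne {k : ℕ} (ha : ∀ i, a i ≠ 0) {e x : Fin n} (hex : |a e| < |a x|) :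
    (Z n k a).card ≤ ∑ i ∈ Icc ((n - 5) / 2) ((n - 5) / 2 + 3), (n - 2).choose i := by
  classical
  have hne : e ≠ x := fun h => by rw [h] at hex; exact lt_irrefl _ hex
  have he : 0 < |a e| := abs_pos.2 (ha e)
  have hx : 0 < |a x| := abs_pos.2 (ha x)
  let α := {i : Fin n // i ≠ e ∧ i ≠ x}
  let w : α → ℝ := fun u => |a u.1|
  have hw : ∀ u, 0 < w u := fun u => abs_pos.2 (ha u.1)
  have hcard : Fintype.card α = n - 2 := by
    have h1 : Fintype.card α = (univ.filter (fun i : Fin n => i ≠ e ∧ i ≠ x)).card :=
      Fintype.card_subtype _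
    have h2 : (univ.filter (fun i : Fin n => i ≠ e ∧ i ≠ x)) = (univ.erase x).erase e := by
      ext i; simp [and_comm]
    rw [h1, h2, Finset.card_erase_of_mem, Finset.card_erase_of_mem (Finset.mem_univ _),
      Finset.card_univ, Fintype.card_fin]
    · rfl
    · rw [Finset.mem_erase]; exact ⟨hne, Finset.mem_univ _⟩
  set c : ℝ := ∑ i ∈ Neg a, |a i| with hc
  let C : Finset ℝ := {c, c - |a e|, c - |a x|, c - |a e| - |a x|}
  have hC : C.card ≤ 4 := Finset.card_le_four
  let F : Finset (Fin n) → Finset α := fun S =>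
    (symmDiff S (Neg a)).subtype (fun i => i ≠ e ∧ i ≠ x)
  have hsum : ∀ S ∈ Z n k a, ∑ u ∈ F S, w u + (if e ∈ symmDiff S (Neg a) then |a e| else 0) +
      (if x ∈ symmDiff S (Neg a) then |a x| else 0) = c := by
    intro S hS
    rw [mem_Z] at hS
    have h1 := sum_abs_symmDiff a S
    rw [hS.2, add_zero] at h1
    rw [hc, ← h1, sum_split (fun i => |a i|) hne (symmDiff S (Neg a))]
  have hinj : Set.InjOn F (Z n k a : Set (Finset (Fin n))) := by
    intro S hS S' hS' hFF
    have h1 := hsum S hS
    have h2 := hsum S' hS'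
    rw [hFF] at h1
    have h3 : (if e ∈ symmDiff S (Neg a) then |a e| else 0) +
        (if x ∈ symmDiff S (Neg a) then |a x| else 0) =
        (if e ∈ symmDiff S' (Neg a) then |a e| else 0) +
        (if x ∈ symmDiff S' (Neg a) then |a x| else 0) := by linarith
    have h4 : (e ∈ symmDiff S (Neg a) ↔ e ∈ symmDiff S' (Neg a)) ∧
        (x ∈ symmDiff S (Neg a) ↔ x ∈ symmDiff S' (Neg a)) := by
      by_cases p1 : e ∈ symmDiff S (Neg a) <;> by_cases p2 : x ∈ symmDiff S (Neg a) <;>
      by_cases p3 : e ∈ symmDiff S' (Neg a) <;> by_cases p4 : x ∈ symmDiff S' (Neg a) <;>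
      simp only [p1, p2, p3, p4, if_true, if_false, iff_true, iff_false, not_true,
        and_true, and_false, iff_self] at h3 ⊢ <;> linarith
    have h5 : symmDiff S (Neg a) = symmDiff S' (Neg a) := by
      ext i
      by_cases q1 : i = e
      · rw [q1]; exact h4.1
      by_cases q2 : i = x
      · rw [q2]; exact h4.2
      have h6 : (⟨i, q1, q2⟩ : α) ∈ F S ↔ (⟨i, q1, q2⟩ : α) ∈ F S' := by rw [hFF]
      have h7 : ∀ T : Finset (Fin n), (⟨i, q1, q2⟩ : α) ∈ T.subtype (fun i => i ≠ e ∧ i ≠ x) ↔
          i ∈ T := fun T => Finset.mem_subtype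
      exact (h7 _).symm.trans (h6.trans (h7 _))
    exact symmDiff_left_injective (Neg a) h5
  have hmaps : ∀ U ∈ (Z n k a).image F, ∑ u ∈ U, w u ∈ C := by
    intro U hU
    rw [Finset.mem_image] at hU
    obtain ⟨S, hS, rfl⟩ := hU
    have h1 := hsum S hS
    simp only [C, Finset.mem_insert, Finset.mem_singleton]
    by_cases p1 : e ∈ symmDiff S (Neg a) <;> by_cases p2 : x ∈ symmDiff S (Neg a) <;>
      simp only [p1, p2, if_true, if_false] at h1
    · right; right; right; linarith
    · right; left; linarith
    · right; right; left; linarith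
    · left; linarith
  have h1 := card_levels_le w hw C hC _ hmaps
  rw [Finset.card_image_of_injOn hinj, hcard] at h1
  have h2 : n - 2 - 3 = n - 5 := by omega
  rw [h2] at h1
  exact h1

end switch

/-! ## Types -/

lemma card_type {n : ℕ} (P : Finset (Fin n)) (i j : ℕ) :
    ((univ : Finset (Finset (Fin n))).filter (fun S => (S ∩ P).card = i ∧ (S ∩ Pᶜ).card = j)).card =
      P.card.choose i * (Pᶜ).card.choose j := by
  rw [← Finset.card_powersetCard, ← Finset.card_powersetCard, ← Finset.card_product]
  apply Finset.card_nbij' (fun S => (S ∩ P, S ∩ Pᶜ)) (fun p => p.1 ∪ p.2)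
  · intro S hS
    simp only [Finset.coe_filter, Finset.mem_univ, true_and, Set.mem_ofPred_eq] at hS
    simp only [Finset.coe_product, Set.mem_prod, Finset.mem_coe, Finset.mem_powersetCard]
    exact ⟨⟨Finset.inter_subset_right, hS.1⟩, ⟨Finset.inter_subset_right, hS.2⟩⟩
  · rintro ⟨A, B⟩ hp
    simp only [Finset.coe_product, Set.mem_prod, Finset.mem_coe, Finset.mem_powersetCard] at hp
    simp only [Finset.coe_filter, Finset.mem_univ, true_and, Set.mem_ofPred_eq]
    obtain ⟨⟨hA, hA'⟩, hB, hB'⟩ := hp
    have h1 : (A ∪ B) ∩ P = A := by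
      ext x
      have := @hA x; have := @hB x
      simp only [Finset.mem_inter, Finset.mem_union, Finset.mem_compl] at *
      tauto
    have h2 : (A ∪ B) ∩ Pᶜ = B := by
      ext x
      have := @hA x; have := @hB x
      simp only [Finset.mem_inter, Finset.mem_union, Finset.mem_compl] at *
      tauto
    rw [h1, h2]; exact ⟨hA', hB'⟩
  · intro S _
    ext x
    simp only [Finset.mem_inter, Finset.mem_union, Finset.mem_compl]
    tauto
  · rintro ⟨A, B⟩ hp
    simp only [Finset.coe_product, Set.mem_prod, Finset.mem_coe, Finset.mem_powersetCard] at hp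
    obtain ⟨⟨hA, hA'⟩, hB, hB'⟩ := hp
    have h1 : (A ∪ B) ∩ P = A := by
      ext x
      have := @hA x; have := @hB x
      simp only [Finset.mem_inter, Finset.mem_union, Finset.mem_compl] at *
      tauto
    have h2 : (A ∪ B) ∩ Pᶜ = B := by
      ext x
      have := @hA x; have := @hB x
      simp only [Finset.mem_inter, Finset.mem_union, Finset.mem_compl] at *
      tauto
    simp [h1, h2]

lemma card_inter_add {n : ℕ} (P S : Finset (Fin n)) : (S ∩ P).card + (S ∩ Pᶜ).card = S.card := by
  rw [← Finset.card_union_of_disjoint]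
  · congr 1
    ext x
    simp only [Finset.mem_inter, Finset.mem_union, Finset.mem_compl]
    tauto
  · rw [Finset.disjoint_left]
    intro x hx
    simp only [Finset.mem_inter, Finset.mem_compl] at hx ⊢
    tauto

/-- Sum of a function with two values. -/
lemma sum_two {n : ℕ} (P S : Finset (Fin n)) (a : Fin n → ℝ) (u v : ℝ)
    (hP : ∀ i ∈ P, a i = u) (hQ : ∀ i, i ∉ P → a i = v) :
    ∑ i ∈ S, a i = (S ∩ P).card * u + (S ∩ Pᶜ).card * v := by
  have h1 : S = (S ∩ P) ∪ (S ∩ Pᶜ) := by
    ext x
    simp only [Finset.mem_inter, Finset.mem_union, Finset.mem_compl]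
    tauto
  have h2 : Disjoint (S ∩ P) (S ∩ Pᶜ) := by
    rw [Finset.disjoint_left]
    intro x hx
    simp only [Finset.mem_inter, Finset.mem_compl] at hx ⊢
    tauto
  conv_lhs => rw [h1]
  rw [Finset.sum_union h2]
  have h3 : ∑ i ∈ S ∩ P, a i = ∑ i ∈ S ∩ P, u :=
    Finset.sum_congr rfl fun i hi => hP i (Finset.mem_inter.1 hi).2
  have h4 : ∑ i ∈ S ∩ Pᶜ, a i = ∑ i ∈ S ∩ Pᶜ, v :=
    Finset.sum_congr rfl fun i hi => hQ i (Finset.mem_compl.1 (Finset.mem_inter.1 hi).2)
  rw [h3, h4]
  simp

/-- Moving towards the balanced pair increases the product of two binomial coefficients. -/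
lemma choose_mul_balance (p q i : ℕ) :
    p.choose i * q.choose i ≤ ((p + q + 1) / 2).choose i * ((p + q) / 2).choose i := by
  -- one step
  have step : ∀ p q : ℕ, q + 1 ≤ p → (p + 1).choose i * q.choose i ≤ p.choose i * (q + 1).choose i := by
    intro p q h
    rcases i with _ | i
    · simp
    · -- (p+1) choose (i+1) = p choose i + p choose (i+1)
      rw [Nat.choose_succ_succ p i, Nat.choose_succ_succ q i, add_mul, mul_add]
      -- need: C(p,i) C(q,i+1) ≤ C(p,i+1) C(q,i)
      have h1 : p.choose i * q.choose (i + 1) ≤ p.choose (i + 1) * q.choose i := by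
        have e1 : p.choose (i + 1) * (i + 1) = p.choose i * (p - i) := Nat.choose_succ_right_eq p i
        have e2 : q.choose (i + 1) * (i + 1) = q.choose i * (q - i) := Nat.choose_succ_right_eq q i
        have : p.choose i * q.choose (i + 1) * (i + 1) ≤ p.choose (i + 1) * q.choose i * (i + 1) := by
          calc p.choose i * q.choose (i + 1) * (i + 1)
              = p.choose i * (q.choose (i + 1) * (i + 1)) := by ring
            _ = p.choose i * (q.choose i * (q - i)) := by rw [e2]
            _ = (p.choose i * q.choose i) * (q - i) := by ring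
            _ ≤ (p.choose i * q.choose i) * (p - i) := Nat.mul_le_mul_left _ (by omega)
            _ = (p.choose i * (p - i)) * q.choose i := by ring
            _ = (p.choose (i + 1) * (i + 1)) * q.choose i := by rw [e1]
            _ = _ := by ring
        exact Nat.le_of_mul_le_mul_right this (Nat.succ_pos i)
      linarith
  have main : ∀ d q : ℕ, (q + d).choose i * q.choose i ≤
      ((q + d + q + 1) / 2).choose i * ((q + d + q) / 2).choose i := by
    intro d
    induction d using Nat.strong_induction_on with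
    | _ d ih =>
      intro q
      rcases Nat.lt_or_ge d 2 with h | h
      · have h1 : (q + d + q + 1) / 2 = q + d := by omega
        have h2 : (q + d + q) / 2 = q := by omega
        rw [h1, h2]
      · obtain ⟨d', rfl⟩ : ∃ d', d = d' + 2 := ⟨d - 2, by omega⟩
        have h1 := step (q + (d' + 1)) q (by omega)
        have h2 := ih d' (by omega) (q + 1)
        have e1 : q + (d' + 2) = q + (d' + 1) + 1 := by ring
        have e2 : q + 1 + d' = q + (d' + 1) := by ring
        have e3 : q + (d' + 1) + (q + 1) = q + (d' + 2) + q := by ring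
        rw [e2, e3] at h2
        rw [e1] at h2 ⊢
        exact h1.trans h2
  rcases le_total q p with h | h
  · obtain ⟨d, rfl⟩ := Nat.exists_eq_add_of_le h
    exact main d q
  · obtain ⟨d, rfl⟩ := Nat.exists_eq_add_of_le h
    rw [mul_comm, Nat.add_comm p (p + d)]
    exact main d p

/-- If all coordinates have the same absolute value, the balanced sum is an upper bound. -/
lemma card_Z_le_of_eq {n k : ℕ} (a : Fin n → ℝ) (u : ℝ) (hu : 0 < u) (ha : ∀ i, |a i| = u) :
    (Z n k a).card ≤ ∑ i ∈ range (k / 2 + 1), ((n + 1) / 2).choose i * (n / 2).choose i := by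
  classical
  set P : Finset (Fin n) := univ.filter (fun i => 0 < a i) with hP
  have hPu : ∀ i ∈ P, a i = u := by
    intro i hi
    rw [hP, Finset.mem_filter] at hi
    rw [← ha i, abs_of_pos hi.2]
  have hQu : ∀ i, i ∉ P → a i = -u := by
    intro i hi
    rw [hP, Finset.mem_filter, not_and] at hi
    have : a i ≤ 0 := not_lt.1 (hi (Finset.mem_univ _))
    rw [← ha i, abs_of_nonpos this, neg_neg]
  have hsub : Z n k a ⊆ (range (k / 2 + 1)).biUnion (fun i =>
      (univ : Finset (Finset (Fin n))).filter (fun S => (S ∩ P).card = i ∧ (S ∩ Pᶜ).card = i)) := by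
    intro S hS
    rw [mem_Z] at hS
    rw [Finset.mem_biUnion]
    have h1 := sum_two P S a u (-u) hPu hQu
    rw [hS.2] at h1
    have h2 : ((S ∩ P).card : ℝ) = ((S ∩ Pᶜ).card : ℝ) := by
      have : (((S ∩ P).card : ℝ) - ((S ∩ Pᶜ).card : ℝ)) * u = 0 := by linarith
      rcases mul_eq_zero.1 this with h | h
      · linarith
      · exact absurd h hu.ne'
    have h3 : (S ∩ P).card = (S ∩ Pᶜ).card := by exact_mod_cast h2
    have h4 := card_inter_add P S
    refine ⟨(S ∩ P).card, ?_, ?_⟩
    · rw [Finset.mem_range]; omega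
    · rw [Finset.mem_filter]
      exact ⟨Finset.mem_univ _, rfl, h3.symm⟩
  calc (Z n k a).card ≤ _ := Finset.card_le_card hsub
    _ ≤ ∑ i ∈ range (k / 2 + 1), ((univ : Finset (Finset (Fin n))).filter
        (fun S => (S ∩ P).card = i ∧ (S ∩ Pᶜ).card = i)).card := Finset.card_biUnion_le
    _ = ∑ i ∈ range (k / 2 + 1), P.card.choose i * (Pᶜ).card.choose i :=
        Finset.sum_congr rfl fun i _ => card_type P i i
    _ ≤ _ := by
        apply Finset.sum_le_sum
        intro i _
        have h5 : P.card + (Pᶜ).card = n := by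
          rw [Finset.card_compl, Fintype.card_fin]
          have := Finset.card_le_univ P
          rw [Fintype.card_fin] at this
          omega
        have := choose_mul_balance P.card (Pᶜ).card i
        rw [h5] at this
        exact this

/-- The first `t` elements. -/
lemma exists_subset_card {n t : ℕ} (ht : t ≤ n) : ∃ P : Finset (Fin n), P.card = t ∧ (Pᶜ).card = n - t := by
  obtain ⟨P, _, hP⟩ := Finset.exists_subset_card_eq (s := (univ : Finset (Fin n))) (n := t)
    (by rw [Finset.card_univ, Fintype.card_fin]; exact ht)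
  refine ⟨P, hP, ?_⟩
  rw [Finset.card_compl, Fintype.card_fin, hP]

/-- The balanced construction. -/
lemma m2_le_N (n k : ℕ) : m2 n k ≤ N n k := by
  classical
  obtain ⟨P, hP, hQ⟩ := exists_subset_card (n := n) (t := (n + 1) / 2) (by omega)
  set a : Fin n → ℝ := fun i => if i ∈ P then 1 else -1 with ha
  have ha0 : ∀ i, a i ≠ 0 := by
    intro i
    simp only [ha]
    split_ifs <;> norm_num
  have h1 := le_N (adm_of_weight (k := k) a ha0)
  refine le_trans ?_ h1
  have hsub : (Icc 1 (k / 2)).biUnion (fun i => (univ : Finset (Finset (Fin n))).filter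
      (fun S => (S ∩ P).card = i ∧ (S ∩ Pᶜ).card = i)) ⊆ (Z n k a).erase ∅ := by
    intro S hS
    rw [Finset.mem_biUnion] at hS
    obtain ⟨i, hi, hS⟩ := hS
    rw [Finset.mem_Icc] at hi
    rw [Finset.mem_filter] at hS
    obtain ⟨-, h2, h3⟩ := hS
    have h4 := card_inter_add P S
    rw [Finset.mem_erase, mem_Z]
    refine ⟨?_, ?_, ?_⟩
    · rintro rfl
      simp at h2
      omega
    · omega
    · rw [sum_two P S a 1 (-1) (fun i hi => by simp [ha, hi]) (fun i hi => by simp [ha, hi]),
        h2, h3]
      ring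
  refine le_trans (le_of_eq ?_) (Finset.card_le_card hsub)
  rw [Finset.card_biUnion]
  · unfold m2
    apply Finset.sum_congr rfl
    intro i _
    rw [card_type, hP, hQ]
    have : n - (n + 1) / 2 = n / 2 := by omega
    rw [this]
  · intro i _ j _ hij
    rw [Function.onFun, Finset.disjoint_left]
    intro S hS hS'
    rw [Finset.mem_filter] at hS hS'
    exact hij (hS.2.1.symm.trans hS'.2.1)

/-- The unbalanced construction. -/
lemma prod_le_N {n k v : ℕ} (hk : 2 ≤ k) (hv : v ≤ n) :
    v * (n - v).choose (k - 1) ≤ N n k := by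
  classical
  obtain ⟨P, hP, hQ⟩ := exists_subset_card (n := n) (t := v) hv
  set a : Fin n → ℝ := fun i => if i ∈ P then -((k : ℝ) - 1) else 1 with ha
  have hk' : (2 : ℝ) ≤ k := by exact_mod_cast hk
  have ha0 : ∀ i, a i ≠ 0 := by
    intro i
    simp only [ha]
    split_ifs
    · intro h; linarith
    · norm_num
  have h1 := le_N (adm_of_weight (k := k) a ha0)
  refine le_trans ?_ h1
  have hsub : (univ : Finset (Finset (Fin n))).filter
      (fun S => (S ∩ P).card = 1 ∧ (S ∩ Pᶜ).card = k - 1) ⊆ (Z n k a).erase ∅ := by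
    intro S hS
    rw [Finset.mem_filter] at hS
    obtain ⟨-, h2, h3⟩ := hS
    have h4 := card_inter_add P S
    rw [Finset.mem_erase, mem_Z]
    refine ⟨?_, ?_, ?_⟩
    · rintro rfl
      simp at h2
    · omega
    · rw [sum_two P S a (-((k : ℝ) - 1)) 1 (fun i hi => by simp [ha, hi])
        (fun i hi => by simp [ha, hi]), h2, h3]
      rw [Nat.cast_sub (by omega)]
      push_cast
      ring
  refine le_trans (le_of_eq ?_) (Finset.card_le_card hsub)
  rw [card_type, hP, hQ, Nat.choose_one_right]

lemma m2_add_one (n k : ℕ) :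
    m2 n k + 1 = ∑ i ∈ range (k / 2 + 1), ((n + 1) / 2).choose i * (n / 2).choose i := by
  rw [Finset.sum_range_succ']
  simp only [Nat.choose_zero_right, mul_one, add_left_inj]
  unfold m2
  rw [Finset.range_eq_Ico, Finset.sum_Ico_add' (fun i => ((n + 1) / 2).choose i * (n / 2).choose i) 0 (k / 2) 1]
  rfl

/-- The criterion: if the sum of the four largest binomial coefficients of order `n - 2` is at most
`m2 + 1` then the balanced construction is optimal. -/
lemma N_eq_of_top {n k : ℕ} (h : ∑ i ∈ Icc ((n - 5) / 2) ((n - 5) / 2 + 3), (n - 2).choose i ≤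
    ∑ i ∈ range (k / 2 + 1), ((n + 1) / 2).choose i * (n / 2).choose i) :
    N n k = m2 n k := by
  apply le_antisymm _ (m2_le_N n k)
  apply N_le
  intro a ha
  rw [m2_add_one]
  by_cases hex : ∃ e x : Fin n, |a e| < |a x|
  · obtain ⟨e, x, hex⟩ := hex
    exact (card_Z_le_of_ne a ha hex).trans h
  · push Not at hex
    rcases Nat.eq_zero_or_pos n with hn | hn
    · subst hn
      have : (Z 0 k a).card ≤ 1 := by
        refine (Finset.card_le_univ _).trans ?_
        simp
      refine this.trans ?_
      rw [Finset.sum_range_succ']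
      simp
    · let i0 : Fin n := ⟨0, hn⟩
      exact card_Z_le_of_eq a |a i0| (abs_pos.2 (ha i0)) fun i => le_antisymm (hex i0 i) (hex i i0)

end H75MP939
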