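import Pool.Agent.Lib.MP_939498_co.h75B

/-!
# The numerical part of the optimality of the balanced construction
-/

open Finset

namespace H75MP939

/-! ## The four largest binomial coefficients -/

lemma four_even (m : ℕ) (hm : 1 ≤ m) :
    ∑ i ∈ Icc ((2 * m - 5) / 2) ((2 * m - 5) / 2 + 3), (2 * m - 2).choose i =
      (2 * m).choose (m - 1) := by
  rcases Nat.lt_or_ge m 3 with h | h
  · interval_cases m <;> decide
  · obtain ⟨j, rfl⟩ : ∃ j, m = j + 3 := ⟨m - 3, by omega⟩
    have e1 : (2 * (j + 3) - 5) / 2 = j := by omega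
    have e2 : 2 * (j + 3) - 2 = 2 * j + 4 := by omega
    have e3 : 2 * (j + 3) = 2 * j + 6 := by ring
    have e4 : j + 3 - 1 = j + 2 := by omega
    rw [e1, e2, e3, e4]
    have h1 : ∑ i ∈ Icc j (j + 3), (2 * j + 4).choose i = (2 * j + 4).choose j +
        (2 * j + 4).choose (j + 1) + (2 * j + 4).choose (j + 2) + (2 * j + 4).choose (j + 3) := by
      rw [← Finset.Ico_add_one_right_eq_Icc, Finset.sum_Ico_eq_sum_range]
      have : j + 3 + 1 - j = 4 := by omega
      rw [this]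
      simp only [Finset.sum_range_succ, Finset.sum_range_zero, zero_add, Nat.add_zero]
    rw [h1]
    have h2 : (2 * j + 6).choose (j + 2) = (2 * j + 5).choose (j + 1) + (2 * j + 5).choose (j + 2) :=
      Nat.choose_succ_succ _ _
    have h3 : (2 * j + 5).choose (j + 1) = (2 * j + 4).choose j + (2 * j + 4).choose (j + 1) :=
      Nat.choose_succ_succ _ _
    have h4 : (2 * j + 5).choose (j + 2) = (2 * j + 5).choose (j + 3) := by
      apply Nat.choose_symm_of_eq_add; omega
    have h5 : (2 * j + 5).choose (j + 3) = (2 * j + 4).choose (j + 2) + (2 * j + 4).choose (j + 3) :=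
      Nat.choose_succ_succ _ _
    omega

lemma four_odd (m : ℕ) (hm : 1 ≤ m) :
    ∑ i ∈ Icc ((2 * m + 1 - 5) / 2) ((2 * m + 1 - 5) / 2 + 3), (2 * m + 1 - 2).choose i =
      2 * (2 * m).choose (m - 1) := by
  rcases Nat.lt_or_ge m 2 with h | h
  · interval_cases m; decide
  · obtain ⟨j, rfl⟩ : ∃ j, m = j + 2 := ⟨m - 2, by omega⟩
    have e1 : (2 * (j + 2) + 1 - 5) / 2 = j := by omega
    have e2 : 2 * (j + 2) + 1 - 2 = 2 * j + 3 := by omega
    have e3 : 2 * (j + 2) = 2 * j + 4 := by ring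
    have e4 : j + 2 - 1 = j + 1 := by omega
    rw [e1, e2, e3, e4]
    have h1 : ∑ i ∈ Icc j (j + 3), (2 * j + 3).choose i = (2 * j + 3).choose j +
        (2 * j + 3).choose (j + 1) + (2 * j + 3).choose (j + 2) + (2 * j + 3).choose (j + 3) := by
      rw [← Finset.Ico_add_one_right_eq_Icc, Finset.sum_Ico_eq_sum_range]
      have : j + 3 + 1 - j = 4 := by omega
      rw [this]
      simp only [Finset.sum_range_succ, Finset.sum_range_zero, zero_add, Nat.add_zero]
    rw [h1]
    have h2 : (2 * j + 4).choose (j + 1) = (2 * j + 3).choose j + (2 * j + 3).choose (j + 1) :=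
      Nat.choose_succ_succ _ _
    have h3 : (2 * j + 3).choose (j + 2) = (2 * j + 3).choose (j + 1) := by
      apply Nat.choose_symm_of_eq_add; omega
    have h4 : (2 * j + 3).choose (j + 3) = (2 * j + 3).choose j := by
      apply Nat.choose_symm_of_eq_add; omega
    omega

/-! ## Vandermonde -/

lemma vander (p m : ℕ) : ∑ i ∈ range (m + 1), p.choose i * m.choose i = (p + m).choose m := by
  rw [Nat.add_choose_eq, Finset.Nat.sum_antidiagonal_eq_sum_range_succ_mk]
  apply Finset.sum_congr rfl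
  intro i hi
  rw [Finset.mem_range] at hi
  rw [Nat.choose_symm (by omega : i ≤ m)]

/-- The tail of the Vandermonde sum. -/
def tail (p m K : ℕ) : ℕ := ∑ i ∈ Ico (K + 1) (m + 1), p.choose i * m.choose i

lemma head_add_tail (p m K : ℕ) (hK : K ≤ m) :
    ∑ i ∈ range (K + 1), p.choose i * m.choose i + tail p m K = (p + m).choose m := by
  rw [← vander, tail, Finset.range_eq_Ico, Finset.range_eq_Ico]
  exact Finset.sum_Ico_consecutive _ (by omega) (by omega)

lemma cb_sub (m : ℕ) (hm : 1 ≤ m) :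
    (m + 1) * (2 * m).choose (m - 1) + m.centralBinom = (m + 1) * m.centralBinom := by
  obtain ⟨j, rfl⟩ : ∃ j, m = j + 1 := ⟨m - 1, by omega⟩
  have h1 := Nat.choose_succ_right_eq (2 * (j + 1)) j
  have h2 : 2 * (j + 1) - j = j + 2 := by omega
  rw [h2] at h1
  rw [Nat.centralBinom_eq_two_mul_choose]
  simp only [Nat.add_sub_cancel]
  linarith

/-- Criterion for `n = 2m`. -/
lemma crit_even {m K : ℕ} (hm : 1 ≤ m) (hK : K ≤ m)
    (h : (m + 1) * tail m m K ≤ m.centralBinom) : N (2 * m) (2 * K) = m2 (2 * m) (2 * K) := by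
  apply N_eq_of_top
  rw [four_even m hm]
  have e1 : (2 * m + 1) / 2 = m := by omega
  have e2 : 2 * m / 2 = m := by omega
  have e3 : 2 * K / 2 = K := by omega
  rw [e1, e2, e3]
  have h1 := head_add_tail m m K hK
  have h2 := cb_sub m hm
  have h3 : (m + m).choose m = m.centralBinom := by
    rw [Nat.centralBinom_eq_two_mul_choose, two_mul]
  rw [h3] at h1
  have h4 : (m + 1) * ∑ i ∈ range (K + 1), m.choose i * m.choose i + (m + 1) * tail m m K =
      (m + 1) * m.centralBinom := by rw [← mul_add, h1]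
  have h5 : (m + 1) * (2 * m).choose (m - 1) ≤
      (m + 1) * ∑ i ∈ range (K + 1), m.choose i * m.choose i := by omega
  exact Nat.le_of_mul_le_mul_left h5 (Nat.succ_pos m)

/-- Criterion for `n = 2m + 1`. -/
lemma crit_odd {m K : ℕ} (hm : 1 ≤ m) (hK : K ≤ m)
    (h : (m + 1) * tail (m + 1) m K ≤ m.centralBinom) :
    N (2 * m + 1) (2 * K) = m2 (2 * m + 1) (2 * K) := by
  apply N_eq_of_top
  rw [four_odd m hm]
  have e1 : (2 * m + 1 + 1) / 2 = m + 1 := by omega
  have e2 : (2 * m + 1) / 2 = m := by omega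
  have e3 : 2 * K / 2 = K := by omega
  rw [e1, e2, e3]
  have h1 := head_add_tail (m + 1) m K hK
  have h2 := cb_sub m hm
  have h3 : (m + 1 + m).choose m = m.centralBinom + (2 * m).choose (m - 1) := by
    obtain ⟨j, rfl⟩ : ∃ j, m = j + 1 := ⟨m - 1, by omega⟩
    have e : j + 1 + 1 + (j + 1) = 2 * (j + 1) + 1 := by ring
    rw [e, Nat.choose_succ_succ, Nat.centralBinom_eq_two_mul_choose, Nat.add_sub_cancel, add_comm]
  rw [h3] at h1
  have h4 : (m + 1) * ∑ i ∈ range (K + 1), (m + 1).choose i * m.choose i +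
      (m + 1) * tail (m + 1) m K =
      (m + 1) * m.centralBinom + (m + 1) * (2 * m).choose (m - 1) := by rw [← mul_add, h1, mul_add]
  have h5 : (m + 1) * (2 * (2 * m).choose (m - 1)) ≤
      (m + 1) * ∑ i ∈ range (K + 1), (m + 1).choose i * m.choose i := by
    have : (m + 1) * (2 * (2 * m).choose (m - 1)) =
      (m + 1) * (2 * m).choose (m - 1) + (m + 1) * (2 * m).choose (m - 1) := by ring
    omega
  exact Nat.le_of_mul_le_mul_left h5 (Nat.succ_pos m)

/-! ## The tail for `2n ≤ 3k` -/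

def T (m j : ℕ) : ℕ := (m + 1).choose (j + 1) * m.choose j

def t (m J : ℕ) : ℕ := ∑ j ∈ range J, T m j

lemma tail_odd_eq (m K : ℕ) (hK : K ≤ m) : tail (m + 1) m K = t m (m - K) := by
  unfold tail t
  rw [Finset.range_eq_Ico]
  have h := Finset.sum_Ico_reflect (fun i => (m + 1).choose i * m.choose i) 0
    (m := m - K) (n := m) (by omega)
  have e1 : m + 1 - (m - K) = K + 1 := by omega
  rw [e1, Nat.sub_zero] at h
  rw [← h]
  apply Finset.sum_congr rfl
  intro j hj
  rw [Finset.mem_Ico] at hj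
  have hj' : j ≤ m := by omega
  unfold T
  rw [Nat.choose_symm hj']
  congr 1
  rw [← Nat.choose_symm (by omega : j + 1 ≤ m + 1)]
  congr 1
  omega

lemma tail_even_le (m K : ℕ) (hK : K ≤ m) : tail m m K ≤ t m (m - K) := by
  rw [← tail_odd_eq m K hK]
  unfold tail
  apply Finset.sum_le_sum
  intro i _
  exact Nat.mul_le_mul_right _ (Nat.choose_le_choose i (by omega))

/-- Three steps in a binomial coefficient. -/
lemma choose3 (r a : ℕ) : (r + a + 3).choose (r + 1) * ((r + 1) * (a + 2) * (a + 1)) =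
    (r + a).choose r * ((r + a + 3) * (r + a + 2) * (r + a + 1)) := by
  have h1 := Nat.add_choose_mul_factorial_mul_factorial (a + 2) (r + 1)
  have h2 := Nat.add_choose_mul_factorial_mul_factorial a r
  have e1 : a + 2 + (r + 1) = r + a + 3 := by ring
  have e2 : a + r = r + a := by ring
  rw [e1] at h1
  rw [e2] at h2
  have f1 : (r + 1).factorial = (r + 1) * r.factorial := Nat.factorial_succ r
  have f2 : (a + 2).factorial = (a + 2) * ((a + 1) * a.factorial) := by
    rw [Nat.factorial_succ, Nat.factorial_succ]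
  have f3 : (r + a + 3).factorial = (r + a + 3) * ((r + a + 2) * ((r + a + 1) * (r + a).factorial)) := by
    rw [Nat.factorial_succ, Nat.factorial_succ, Nat.factorial_succ]
  rw [f1, f2, f3] at h1
  have hpos : 0 < r.factorial * a.factorial := Nat.mul_pos r.factorial_pos a.factorial_pos
  apply Nat.eq_of_mul_eq_mul_right hpos
  calc (r + a + 3).choose (r + 1) * ((r + 1) * (a + 2) * (a + 1)) * (r.factorial * a.factorial)
      = (r + a + 3).choose (r + 1) * ((r + 1) * r.factorial) *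
          ((a + 2) * ((a + 1) * a.factorial)) := by ring
    _ = (r + a + 3) * ((r + a + 2) * ((r + a + 1) * (r + a).factorial)) := by rw [← h1]; ring
    _ = (r + a + 3) * ((r + a + 2) * ((r + a + 1) * ((r + a).choose r * a.factorial *
          r.factorial))) := by rw [h2]
    _ = _ := by ring

/-- Three steps in `T`, where `m = v + a`. -/
lemma T3 (v a : ℕ) : T (v + a + 3) (v + 1) * ((v + 1) * (v + 2) * (a + 2) ^ 2 * (a + 1) ^ 2) =
    T (v + a) v * ((v + a + 4) * (v + a + 3) ^ 2 * (v + a + 2) ^ 2 * (v + a + 1)) := by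
  have h1 := choose3 (v + 1) a
  have h2 := choose3 v a
  have e1 : v + 1 + a + 3 = v + a + 3 + 1 := by ring
  have e2 : v + 1 + a = v + a + 1 := by ring
  have e3 : v + 1 + a + 2 = v + a + 3 := by ring
  have e4 : v + 1 + a + 1 = v + a + 2 := by ring
  rw [e1, e3, e4, e2] at h1
  unfold T
  have e5 : v + 1 + 1 = v + 2 := by ring
  rw [e5] at h1 ⊢
  calc (v + a + 3 + 1).choose (v + 2) * (v + a + 3).choose (v + 1) *
        ((v + 1) * (v + 2) * (a + 2) ^ 2 * (a + 1) ^ 2)
      = ((v + a + 3 + 1).choose (v + 2) * ((v + 2) * (a + 2) * (a + 1))) *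
        ((v + a + 3).choose (v + 1) * ((v + 1) * (a + 2) * (a + 1))) := by ring
    _ = _ := by rw [h1, h2]; ring

lemma cb3 (m : ℕ) : (m + 3).centralBinom * ((m + 1) * (m + 2) * (m + 3)) =
    m.centralBinom * (8 * (2 * m + 1) * (2 * m + 3) * (2 * m + 5)) := by
  have h1 := Nat.succ_mul_centralBinom_succ m
  have h2 := Nat.succ_mul_centralBinom_succ (m + 1)
  have h3 := Nat.succ_mul_centralBinom_succ (m + 2)
  have e1 : m + 1 + 1 = m + 2 := rfl
  have e2 : m + 2 + 1 = m + 3 := rfl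
  rw [e1] at h2
  rw [e2] at h3
  calc (m + 3).centralBinom * ((m + 1) * (m + 2) * (m + 3))
      = (m + 1) * (m + 2) * ((m + 3) * (m + 3).centralBinom) := by ring
    _ = (m + 1) * (m + 2) * (2 * (2 * (m + 2) + 1) * (m + 2).centralBinom) := by rw [h3]
    _ = (m + 1) * (2 * (2 * (m + 2) + 1)) * ((m + 2) * (m + 2).centralBinom) := by ring
    _ = (m + 1) * (2 * (2 * (m + 2) + 1)) * (2 * (2 * (m + 1) + 1) * (m + 1).centralBinom) := by
        rw [h2]
    _ = (2 * (2 * (m + 2) + 1)) * (2 * (2 * (m + 1) + 1)) * ((m + 1) * (m + 1).centralBinom) := by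
        ring
    _ = (2 * (2 * (m + 2) + 1)) * (2 * (2 * (m + 1) + 1)) *
        (2 * (2 * m + 1) * m.centralBinom) := by rw [h1]
    _ = _ := by ring

lemma step3 (v a : ℕ)
    (hpoly : (v + a + 4) ^ 2 * (v + a + 3) ^ 3 * (v + a + 2) ^ 3 * (v + a + 1) ≤
      8 * (2 * (v + a) + 1) * (2 * (v + a) + 3) * (2 * (v + a) + 5) *
      ((v + 1) * (v + 2) * (a + 2) ^ 2 * (a + 1) ^ 2))
    (h : 4 * (v + a + 1) * T (v + a) v ≤ 3 * (v + a).centralBinom) :
    4 * (v + a + 4) * T (v + a + 3) (v + 1) ≤ 3 * (v + a + 3).centralBinom := by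
  have hpos : 0 < ((v + 1) * (v + 2) * (a + 2) ^ 2 * (a + 1) ^ 2) *
      ((v + a + 1) * (v + a + 2) * (v + a + 3)) := by positivity
  apply Nat.le_of_mul_le_mul_right _ hpos
  have hT := T3 v a
  have hc := cb3 (v + a)
  calc 4 * (v + a + 4) * T (v + a + 3) (v + 1) * (((v + 1) * (v + 2) * (a + 2) ^ 2 * (a + 1) ^ 2) *
      ((v + a + 1) * (v + a + 2) * (v + a + 3)))
      = 4 * (v + a + 4) * (T (v + a + 3) (v + 1) * ((v + 1) * (v + 2) * (a + 2) ^ 2 * (a + 1) ^ 2)) *
      ((v + a + 1) * (v + a + 2) * (v + a + 3)) := by ring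
    _ = 4 * (v + a + 4) * (T (v + a) v * ((v + a + 4) * (v + a + 3) ^ 2 * (v + a + 2) ^ 2 *
        (v + a + 1))) * ((v + a + 1) * (v + a + 2) * (v + a + 3)) := by rw [hT]
    _ = (4 * (v + a + 1) * T (v + a) v) * ((v + a + 4) ^ 2 * (v + a + 3) ^ 3 * (v + a + 2) ^ 3 *
        (v + a + 1)) := by ring
    _ ≤ (3 * (v + a).centralBinom) * (8 * (2 * (v + a) + 1) * (2 * (v + a) + 3) *
        (2 * (v + a) + 5) * ((v + 1) * (v + 2) * (a + 2) ^ 2 * (a + 1) ^ 2)) :=
        Nat.mul_le_mul h hpoly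
    _ = 3 * ((v + a).centralBinom * (8 * (2 * (v + a) + 1) * (2 * (v + a) + 3) *
        (2 * (v + a) + 5))) * ((v + 1) * (v + 2) * (a + 2) ^ 2 * (a + 1) ^ 2) := by ring
    _ = 3 * ((v + a + 3).centralBinom * ((v + a + 1) * (v + a + 2) * (v + a + 3))) *
        ((v + 1) * (v + 2) * (a + 2) ^ 2 * (a + 1) ^ 2) := by rw [hc]
    _ = _ := by ring

lemma poly3 (w : ℕ) (c : ℕ) (hc : c = 3 ∨ c = 4 ∨ c = 5) :
    ((w + 4) + (2 * (w + 4) + c) + 4) ^ 2 * ((w + 4) + (2 * (w + 4) + c) + 3) ^ 3 *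
      ((w + 4) + (2 * (w + 4) + c) + 2) ^ 3 * ((w + 4) + (2 * (w + 4) + c) + 1) ≤
      8 * (2 * ((w + 4) + (2 * (w + 4) + c)) + 1) * (2 * ((w + 4) + (2 * (w + 4) + c)) + 3) *
      (2 * ((w + 4) + (2 * (w + 4) + c)) + 5) *
      (((w + 4) + 1) * ((w + 4) + 2) * ((2 * (w + 4) + c) + 2) ^ 2 *
        ((2 * (w + 4) + c) + 1) ^ 2) := by
  rcases hc with rfl | rfl | rfl
  · have : 8 * (2 * ((w + 4) + (2 * (w + 4) + 3)) + 1) * (2 * ((w + 4) + (2 * (w + 4) + 3)) + 3) *
      (2 * ((w + 4) + (2 * (w + 4) + 3)) + 5) *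
      (((w + 4) + 1) * ((w + 4) + 2) * ((2 * (w + 4) + 3) + 2) ^ 2 *
        ((2 * (w + 4) + 3) + 1) ^ 2) =
      ((w + 4) + (2 * (w + 4) + 3) + 4) ^ 2 * ((w + 4) + (2 * (w + 4) + 3) + 3) ^ 3 *
      ((w + 4) + (2 * (w + 4) + 3) + 2) ^ 3 * ((w + 4) + (2 * (w + 4) + 3) + 1) +
      (43626605184 + 71422573608*w^1 + 51645459276*w^2 + 21664646490*w^3 + 5813591097*w^4 +
        1035412641*w^5 + 122442522*w^6 + 9273696*w^7 + 408321*w^8 + 7965*w^9) := by ring
    rw [this]
    exact Nat.le_add_right _ _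
  · have : 8 * (2 * ((w + 4) + (2 * (w + 4) + 4)) + 1) * (2 * ((w + 4) + (2 * (w + 4) + 4)) + 3) *
      (2 * ((w + 4) + (2 * (w + 4) + 4)) + 5) *
      (((w + 4) + 1) * ((w + 4) + 2) * ((2 * (w + 4) + 4) + 2) ^ 2 *
        ((2 * (w + 4) + 4) + 1) ^ 2) =
      ((w + 4) + (2 * (w + 4) + 4) + 4) ^ 2 * ((w + 4) + (2 * (w + 4) + 4) + 3) ^ 3 *
      ((w + 4) + (2 * (w + 4) + 4) + 2) ^ 3 * ((w + 4) + (2 * (w + 4) + 4) + 1) +
      (67721515200 + 106811225760*w^1 + 74094209928*w^2 + 29716636068*w^3 + 7602804270*w^4 +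
        1287956547*w^5 + 144577026*w^6 + 10375980*w^7 + 432216*w^8 + 7965*w^9) := by ring
    rw [this]
    exact Nat.le_add_right _ _
  · have : 8 * (2 * ((w + 4) + (2 * (w + 4) + 5)) + 1) * (2 * ((w + 4) + (2 * (w + 4) + 5)) + 3) *
      (2 * ((w + 4) + (2 * (w + 4) + 5)) + 5) *
      (((w + 4) + 1) * ((w + 4) + 2) * ((2 * (w + 4) + 5) + 2) ^ 2 *
        ((2 * (w + 4) + 5) + 1) ^ 2) =
      ((w + 4) + (2 * (w + 4) + 5) + 4) ^ 2 * ((w + 4) + (2 * (w + 4) + 5) + 3) ^ 3 *
      ((w + 4) + (2 * (w + 4) + 5) + 2) ^ 3 * ((w + 4) + (2 * (w + 4) + 5) + 1) +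
      (98970984000 + 152451028800*w^1 + 102518552520*w^2 + 39637962906*w^3 + 9734309919*w^4 +
        1577412393*w^5 + 168890922*w^6 + 11532768*w^7 + 456111*w^8 + 7965*w^9) := by ring
    rw [this]
    exact Nat.le_add_right _ _

lemma P_all (c : ℕ) (hc : c = 3 ∨ c = 4 ∨ c = 5) (w : ℕ) :
    4 * ((w + 4) + (2 * (w + 4) + c) + 1) * T ((w + 4) + (2 * (w + 4) + c)) (w + 4) ≤
      3 * ((w + 4) + (2 * (w + 4) + c)).centralBinom := by
  induction w with
  | zero =>
    rcases hc with rfl | rfl | rfl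
    · unfold T Nat.centralBinom; decide +kernel
    · unfold T Nat.centralBinom; decide +kernel
    · unfold T Nat.centralBinom; decide +kernel
  | succ w ih =>
    have h := step3 (w + 4) (2 * (w + 4) + c) (poly3 w c hc) ih
    have e1 : (w + 1 + 4) + (2 * (w + 1 + 4) + c) = (w + 4) + (2 * (w + 4) + c) + 3 := by ring
    have e2 : w + 1 + 4 = w + 4 + 1 := by ring
    rw [e1, e2]
    exact h

/-- Geometric bound of the tail. -/
lemma t_le (m u : ℕ) (hu : 3 * (u + 1) ≤ m) : 3 * t m (u + 1) ≤ 4 * T m u := by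
  induction u with
  | zero =>
    simp only [t, T, zero_add, Finset.sum_range_one]
    exact Nat.mul_le_mul_right _ (by norm_num)
  | succ u ih =>
    have h1 := ih (by omega)
    have h2 : 4 * T m u ≤ T m (u + 1) := by
      -- T m (u+1) * ((u+2)(u+1)) = T m u * (m - u)^2
      have e1 : (m + 1).choose (u + 2) * (u + 2) = (m + 1).choose (u + 1) * (m - u) := by
        have := Nat.choose_succ_right_eq (m + 1) (u + 1)
        have e : m + 1 - (u + 1) = m - u := by omega
        rw [e] at this; exact this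
      have e2 : m.choose (u + 1) * (u + 1) = m.choose u * (m - u) := Nat.choose_succ_right_eq m u
      have e3 : T m (u + 1) * ((u + 2) * (u + 1)) = T m u * (m - u) ^ 2 := by
        unfold T
        calc (m + 1).choose (u + 1 + 1) * m.choose (u + 1) * ((u + 2) * (u + 1))
            = ((m + 1).choose (u + 2) * (u + 2)) * (m.choose (u + 1) * (u + 1)) := by ring
          _ = _ := by rw [e1, e2]; ring
      have e4 : 4 * ((u + 2) * (u + 1)) ≤ (m - u) ^ 2 := by
        have : 2 * u + 6 ≤ m - u := by omega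
        calc 4 * ((u + 2) * (u + 1)) ≤ (2 * u + 6) ^ 2 := by nlinarith
          _ ≤ (m - u) ^ 2 := Nat.pow_le_pow_left this 2
      have hpos : 0 < (u + 2) * (u + 1) := by positivity
      apply Nat.le_of_mul_le_mul_right _ hpos
      rw [e3]
      calc 4 * T m u * ((u + 2) * (u + 1)) = T m u * (4 * ((u + 2) * (u + 1))) := by ring
        _ ≤ _ := Nat.mul_le_mul_left _ e4
    have h3 : t m (u + 1 + 1) = t m (u + 1) + T m (u + 1) := Finset.sum_range_succ _ _
    rw [h3]
    omega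

lemma t_mono (m : ℕ) {J J' : ℕ} (h : J ≤ J') : t m J ≤ t m J' := by
  unfold t
  exact Finset.sum_le_sum_of_subset (Finset.range_subset_range.2 h)

lemma t_bound (m : ℕ) (hm : m ≠ 6) : (m + 1) * t m (m / 3) ≤ m.centralBinom := by
  rcases Nat.lt_or_ge m 15 with h | h
  · unfold t T Nat.centralBinom
    interval_cases m <;> first | (exact absurd rfl hm) | decide +kernel
  · obtain ⟨w, c, hc, hw⟩ : ∃ w c, (c = 3 ∨ c = 4 ∨ c = 5) ∧ m = (w + 4) + (2 * (w + 4) + c) := by
      refine ⟨m / 3 - 5, m % 3 + 3, by omega, by omega⟩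
    have h1 := P_all c hc w
    rw [← hw] at h1
    have h2 : m / 3 = w + 4 + 1 := by omega
    have h3 := t_le m (w + 4) (by omega)
    rw [h2]
    have h4 : 3 * ((m + 1) * t m (w + 4 + 1)) ≤ 3 * m.centralBinom := by
      calc 3 * ((m + 1) * t m (w + 4 + 1)) = (m + 1) * (3 * t m (w + 4 + 1)) := by ring
        _ ≤ (m + 1) * (4 * T m (w + 4)) := Nat.mul_le_mul_left _ h3
        _ = 4 * (m + 1) * T m (w + 4) := by ring
        _ ≤ _ := h1
    omega

/-- Optimality of the balanced construction for `n ≤ 3k/2`. -/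
theorem N_eq_of_le {n k : ℕ} (hk : Even k) (hkn : k ≤ n) (h : 2 * n ≤ 3 * k) :
    N n k = m2 n k := by
  obtain ⟨K, rfl⟩ := hk
  rw [← two_mul] at *
  rcases Nat.eq_zero_or_pos n with hn0 | hn0
  · subst hn0
    have hK : K = 0 := by omega
    subst hK
    apply N_eq_of_top
    decide
  rcases Nat.even_or_odd n with hn | hn
  · obtain ⟨m, rfl⟩ := hn
    rw [← two_mul] at *
    apply crit_even (by omega) (by omega)
    by_cases h6 : m = 6
    · subst h6
      have hK : K = 4 ∨ K = 5 ∨ K = 6 := by omega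
      rcases hK with rfl | rfl | rfl <;> · unfold tail Nat.centralBinom; decide +kernel
    · calc (m + 1) * tail m m K ≤ (m + 1) * t m (m - K) :=
          Nat.mul_le_mul_left _ (tail_even_le m K (by omega))
        _ ≤ (m + 1) * t m (m / 3) := Nat.mul_le_mul_left _ (t_mono m (by omega))
        _ ≤ _ := t_bound m h6
  · obtain ⟨m, rfl⟩ := hn
    apply crit_odd (by omega) (by omega)
    rw [tail_odd_eq m K (by omega)]
    by_cases h6 : m = 6
    · subst h6
      have hK : K = 5 ∨ K = 6 := by omega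
      rcases hK with rfl | rfl <;> · unfold t T Nat.centralBinom; decide +kernel
    · calc (m + 1) * t m (m - K) ≤ (m + 1) * t m (m / 3) :=
          Nat.mul_le_mul_left _ (t_mono m (by omega))
        _ ≤ _ := t_bound m h6

end H75MP939
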