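import Pool.Agent.Lib.MP_939498_co.h75C

/-!
# Optimality of the balanced construction for `n ≤ 2k - 3 √(k log k)`
-/

open Finset

namespace H75MP939

lemma choose_mul_le (p m i : ℕ) : p.choose i * m.choose i ≤ (p + m).choose (2 * i) := by
  rw [Nat.add_choose_eq]
  exact Finset.single_le_sum (f := fun ij : ℕ × ℕ => p.choose ij.1 * m.choose ij.2)
    (fun _ _ => Nat.zero_le _) (a := (i, i)) (by rw [Finset.HasAntidiagonal.mem_antidiagonal]; ring)

lemma tail_le_exp (p m K : ℕ) (hp : m ≤ p) (l : ℝ) (hl : 0 ≤ l) :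
    (tail p m K : ℝ) ≤ Real.exp (-(l * (2 * K + 2))) * (1 + Real.exp l) ^ (p + m) := by
  have h1 : (tail p m K : ℝ) ≤ ∑ i ∈ Ico (K + 1) (m + 1),
      ((p + m).choose (2 * i) : ℝ) * Real.exp (l * ((2 * i : ℕ) - (2 * K + 2))) := by
    unfold tail
    push_cast
    apply Finset.sum_le_sum
    intro i hi
    rw [Finset.mem_Ico] at hi
    have h2 : (p.choose i : ℝ) * (m.choose i : ℝ) ≤ ((p + m).choose (2 * i) : ℝ) := by
      exact_mod_cast choose_mul_le p m i
    have h3 : (1 : ℝ) ≤ Real.exp (l * (2 * (i : ℝ) - (2 * K + 2))) := by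
      apply Real.one_le_exp
      apply mul_nonneg hl
      have : (K : ℝ) + 1 ≤ i := by exact_mod_cast hi.1
      linarith
    calc (p.choose i : ℝ) * (m.choose i : ℝ) ≤ ((p + m).choose (2 * i) : ℝ) * 1 := by
          rw [mul_one]; exact h2
      _ ≤ _ := mul_le_mul_of_nonneg_left h3 (Nat.cast_nonneg _)
  refine h1.trans ?_
  have h2 : ∑ i ∈ Ico (K + 1) (m + 1),
      ((p + m).choose (2 * i) : ℝ) * Real.exp (l * ((2 * i : ℕ) - (2 * K + 2))) =
      ∑ j ∈ (Ico (K + 1) (m + 1)).image (fun i => 2 * i),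
      ((p + m).choose j : ℝ) * Real.exp (l * ((j : ℕ) - (2 * K + 2))) := by
    rw [Finset.sum_image]
    intro i _ j _ hij
    have : 2 * i = 2 * j := hij
    omega
  rw [h2]
  have h3 : ∑ j ∈ (Ico (K + 1) (m + 1)).image (fun i => 2 * i),
      ((p + m).choose j : ℝ) * Real.exp (l * ((j : ℕ) - (2 * K + 2))) ≤
      ∑ j ∈ range (p + m + 1),
      ((p + m).choose j : ℝ) * Real.exp (l * ((j : ℕ) - (2 * K + 2))) := by
    apply Finset.sum_le_sum_of_subset_of_nonneg
    · intro j hj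
      rw [Finset.mem_image] at hj
      obtain ⟨i, hi, rfl⟩ := hj
      rw [Finset.mem_Ico] at hi
      rw [Finset.mem_range]
      omega
    · intro j _ _
      positivity
  refine h3.trans (le_of_eq ?_)
  rw [add_comm (1 : ℝ), add_pow, Finset.mul_sum]
  apply Finset.sum_congr rfl
  intro j _
  rw [one_pow, mul_one, ← Real.exp_nat_mul]
  have : l * ((j : ℝ) - (2 * K + 2)) = -(l * (2 * K + 2)) + j * l := by ring
  rw [this, Real.exp_add]
  ring

lemma tail_le (p m K : ℕ) (hp : m ≤ p) (hn : 0 < p + m) (hD : p + m ≤ 4 * K + 4) :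
    (tail p m K : ℝ) ≤ 2 ^ (p + m) *
      Real.exp (-((4 * K + 4 - (p + m)) ^ 2 / (2 * (p + m)))) := by
  set n : ℝ := (p : ℝ) + m with hnr
  have hn0 : 0 < n := by
    rw [hnr]; exact_mod_cast hn
  set D : ℝ := 4 * K + 4 - n with hDr
  have hD0 : 0 ≤ D := by
    have : (p : ℝ) + m ≤ 4 * K + 4 := by exact_mod_cast hD
    linarith
  set l : ℝ := 2 * D / n with hl
  have hl0 : 0 ≤ l := by positivity
  have h1 := tail_le_exp p m K hp l hl0
  have h2 : 1 + Real.exp l ≤ 2 * Real.exp (l / 2 + l ^ 2 / 8) := by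
    have h3 := Real.cosh_le_exp_half_sq (l / 2)
    rw [Real.cosh_eq] at h3
    have h4 : 1 + Real.exp l = 2 * Real.exp (l / 2) *
        ((Real.exp (l / 2) + Real.exp (-(l / 2))) / 2) := by
      have e1 : Real.exp l = Real.exp (l / 2) * Real.exp (l / 2) := by
        rw [← Real.exp_add]; ring_nf
      have e2 : Real.exp (l / 2) * Real.exp (-(l / 2)) = 1 := by
        rw [← Real.exp_add, add_neg_cancel, Real.exp_zero]
      calc 1 + Real.exp l = Real.exp (l / 2) * Real.exp (-(l / 2)) +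
          Real.exp (l / 2) * Real.exp (l / 2) := by rw [← e1, e2]
        _ = _ := by ring
    rw [h4]
    calc 2 * Real.exp (l / 2) * ((Real.exp (l / 2) + Real.exp (-(l / 2))) / 2)
        ≤ 2 * Real.exp (l / 2) * Real.exp ((l / 2) ^ 2 / 2) :=
          mul_le_mul_of_nonneg_left h3 (by positivity)
      _ = 2 * Real.exp (l / 2 + l ^ 2 / 8) := by
          rw [mul_assoc, ← Real.exp_add]
          congr 2
          ring
  calc (tail p m K : ℝ) ≤ Real.exp (-(l * (2 * K + 2))) * (1 + Real.exp l) ^ (p + m) := h1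
    _ ≤ Real.exp (-(l * (2 * K + 2))) * (2 * Real.exp (l / 2 + l ^ 2 / 8)) ^ (p + m) := by
        apply mul_le_mul_of_nonneg_left _ (Real.exp_nonneg _)
        apply pow_le_pow_left₀ (by positivity) h2
    _ = 2 ^ (p + m) * Real.exp (-(l * (2 * K + 2)) + n * (l / 2 + l ^ 2 / 8)) := by
        rw [mul_pow, ← Real.exp_nat_mul, Real.exp_add]
        have : ((p + m : ℕ) : ℝ) = n := by rw [hnr]; push_cast; ring
        rw [this]
        ring
    _ = 2 ^ (p + m) * Real.exp (-(D ^ 2 / (2 * n))) := by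
        congr 2
        have hK : (2 * (K : ℝ) + 2) = (D + n) / 2 := by rw [hDr]; ring
        rw [hK, hl]
        field_simp
        ring

lemma four_pow_le_cb (m : ℕ) (hm : 0 < m) : (4 : ℝ) ^ m ≤ 2 * m * m.centralBinom := by
  exact_mod_cast Nat.four_pow_le_two_mul_self_mul_centralBinom m hm

/-- The tail is small as soon as `4 n log n ≤ (2k + 4 - n)^2`. -/
lemma tail_small (p m K : ℕ) (hm : 1 ≤ m) (hp : p = m ∨ p = m + 1) (hD : p + m ≤ 4 * K + 4)
    (h : 4 * ((p : ℝ) + m) * Real.log ((p : ℝ) + m) ≤ (4 * K + 4 - ((p : ℝ) + m)) ^ 2) :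
    (m + 1) * tail p m K ≤ m.centralBinom := by
  have hm' : (1 : ℝ) ≤ m := by exact_mod_cast hm
  have hn0 : (0 : ℝ) < (p : ℝ) + m := by
    have : (0 : ℝ) ≤ p := Nat.cast_nonneg p
    linarith
  have h1 := tail_le p m K (by omega) (by omega) hD
  have h2 : Real.exp (-((4 * K + 4 - ((p : ℝ) + m)) ^ 2 / (2 * ((p : ℝ) + m)))) ≤
      1 / ((p : ℝ) + m) ^ 2 := by
    have h3 : 2 * Real.log ((p : ℝ) + m) ≤
        (4 * K + 4 - ((p : ℝ) + m)) ^ 2 / (2 * ((p : ℝ) + m)) := by
      rw [le_div_iff₀ (by positivity)]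
      linarith
    calc Real.exp (-((4 * K + 4 - ((p : ℝ) + m)) ^ 2 / (2 * ((p : ℝ) + m))))
        ≤ Real.exp (-(2 * Real.log ((p : ℝ) + m))) := Real.exp_le_exp.2 (by linarith)
      _ = 1 / ((p : ℝ) + m) ^ 2 := by
          rw [Real.exp_neg, two_mul, Real.exp_add, Real.exp_log hn0]
          field_simp
  have h4 : (tail p m K : ℝ) ≤ 2 ^ (p + m) * (1 / ((p : ℝ) + m) ^ 2) :=
    h1.trans (mul_le_mul_of_nonneg_left h2 (by positivity))
  have h5 := four_pow_le_cb m (by omega)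
  have h6 : ((m : ℝ) + 1) * (2 ^ (p + m) * (1 / ((p : ℝ) + m) ^ 2)) * (2 * m) ≤ 4 ^ m := by
    rcases hp with rfl | rfl
    · have e : (2 : ℝ) ^ (p + p) = 4 ^ p := by
        rw [← two_mul, pow_mul]; norm_num
      rw [e]
      have e2 : ((p : ℝ) + 1) * (4 ^ p * (1 / ((p : ℝ) + p) ^ 2)) * (2 * p) =
          4 ^ p * ((((p : ℝ) + 1) * (2 * p)) / ((p : ℝ) + p) ^ 2) := by
        field_simp
      rw [e2]
      have e3 : (((p : ℝ) + 1) * (2 * p)) / ((p : ℝ) + p) ^ 2 ≤ 1 := by
        rw [div_le_one (by positivity)]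
        nlinarith
      calc (4 : ℝ) ^ p * ((((p : ℝ) + 1) * (2 * p)) / ((p : ℝ) + p) ^ 2) ≤ 4 ^ p * 1 :=
            mul_le_mul_of_nonneg_left e3 (by positivity)
        _ = 4 ^ p := mul_one _
    · have e : (2 : ℝ) ^ (m + 1 + m) = 2 * 4 ^ m := by
        have : m + 1 + m = 2 * m + 1 := by ring
        rw [this, pow_succ, pow_mul]; norm_num; ring
      rw [e]
      push_cast
      have e2 : ((m : ℝ) + 1) * (2 * 4 ^ m * (1 / ((m : ℝ) + 1 + m) ^ 2)) * (2 * m) =
          4 ^ m * ((((m : ℝ) + 1) * (4 * m)) / ((m : ℝ) + 1 + m) ^ 2) := by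
        field_simp
        ring
      rw [e2]
      have e3 : (((m : ℝ) + 1) * (4 * m)) / ((m : ℝ) + 1 + m) ^ 2 ≤ 1 := by
        rw [div_le_one (by positivity)]
        nlinarith
      calc (4 : ℝ) ^ m * ((((m : ℝ) + 1) * (4 * m)) / ((m : ℝ) + 1 + m) ^ 2) ≤ 4 ^ m * 1 :=
            mul_le_mul_of_nonneg_left e3 (by positivity)
        _ = 4 ^ m := mul_one _
  have h7 : ((m : ℝ) + 1) * (tail p m K : ℝ) * (2 * m) ≤ (m.centralBinom : ℝ) * (2 * m) := by
    calc ((m : ℝ) + 1) * (tail p m K : ℝ) * (2 * m)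
        ≤ ((m : ℝ) + 1) * (2 ^ (p + m) * (1 / ((p : ℝ) + m) ^ 2)) * (2 * m) := by
          apply mul_le_mul_of_nonneg_right _ (by positivity)
          exact mul_le_mul_of_nonneg_left h4 (by positivity)
      _ ≤ 4 ^ m := h6
      _ ≤ 2 * m * m.centralBinom := h5
      _ = _ := by ring
  have h8 : ((m : ℝ) + 1) * (tail p m K : ℝ) ≤ (m.centralBinom : ℝ) :=
    le_of_mul_le_mul_right h7 (by positivity)
  exact_mod_cast h8

/-- The analytic inequality. -/
lemma log_ineq (k n : ℝ) (hk : 2 ≤ k) (hn : 1 ≤ n)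
    (h : n + 3 * Real.sqrt (k * Real.log k) ≤ 2 * k) :
    4 * n * Real.log n ≤ (2 * k + 4 - n) ^ 2 := by
  set L := Real.log k with hL
  set s := Real.sqrt (k * L) with hs
  set y := Real.sqrt k with hy
  have hk0 : 0 < k := by linarith
  have hy0 : 0 < y := Real.sqrt_pos.2 hk0
  have hy2 : y ^ 2 = k := Real.sq_sqrt hk0.le
  have hlog2 : (0.69 : ℝ) < Real.log 2 := by
    have := Real.log_two_gt_d9; linarith
  have hL2 : Real.log 2 ≤ L := Real.log_le_log (by norm_num) hk
  have hL0 : 0 < L := by linarith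
  have hs0 : 0 ≤ s := Real.sqrt_nonneg _
  have hs2 : s ^ 2 = k * L := Real.sq_sqrt (by positivity)
  have hsy : 0.8 * y ≤ s := by
    apply le_of_sq_le_sq _ hs0
    rw [hs2, mul_pow, hy2]
    nlinarith
  have hLy : L = 2 * Real.log y := by
    rw [hL, ← hy2, Real.log_pow]
    push_cast
    ring
  -- 8 log 2 y² ≤ 2 y² log y + 12 y
  have hkey : 8 * Real.log 2 * k ≤ k * L + 12 * y := by
    have h1 : Real.log (6 / y) ≤ 6 / y - 1 := Real.log_le_sub_one_of_pos (by positivity)
    rw [Real.log_div (by norm_num) hy0.ne'] at h1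
    have h2 : y * (Real.log 6 - Real.log y) ≤ 6 - y := by
      calc y * (Real.log 6 - Real.log y) ≤ y * (6 / y - 1) :=
            mul_le_mul_of_nonneg_left h1 hy0.le
        _ = 6 - y := by field_simp
    have h3 : 4 * Real.log 2 ≤ 1 + Real.log 6 := by
      have h4 : Real.log (16 / 6) ≤ 1 := by
        rw [Real.log_le_iff_le_exp (by norm_num)]
        have := Real.exp_one_gt_d9
        linarith
      rw [Real.log_div (by norm_num) (by norm_num)] at h4
      have h5 : Real.log 16 = 4 * Real.log 2 := by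
        have : (16 : ℝ) = 2 ^ 4 := by norm_num
        rw [this, Real.log_pow]; norm_num
      rw [h5] at h4
      linarith
    have h6 : y * (8 * Real.log 2) ≤ y * (2 * Real.log y) + 12 := by
      have : y * (8 * Real.log 2) ≤ y * (2 + 2 * Real.log 6) :=
        mul_le_mul_of_nonneg_left (by linarith) hy0.le
      nlinarith
    rw [hLy, ← hy2]
    nlinarith
  have hn2k : n ≤ 2 * k := by linarith
  have hlogn : Real.log n ≤ Real.log 2 + L := by
    rw [hL, ← Real.log_mul (by norm_num) hk0.ne']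
    exact Real.log_le_log (by linarith) hn2k
  have hlogn0 : 0 ≤ Real.log n := Real.log_nonneg hn
  have h1 : 4 * n * Real.log n ≤ 4 * (2 * k - 3 * s) * (Real.log 2 + L) := by
    apply mul_le_mul
    · linarith
    · exact hlogn
    · exact hlogn0
    · linarith
  have h2 : 4 * (2 * k - 3 * s) * (Real.log 2 + L) ≤ 8 * k * Real.log 2 + 8 * (k * L) := by
    nlinarith [mul_nonneg hs0 (by linarith : (0 : ℝ) ≤ Real.log 2 + L)]
  have h3 : (3 * s + 4) ^ 2 ≤ (2 * k + 4 - n) ^ 2 := by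
    apply pow_le_pow_left₀ (by positivity)
    linarith
  have h4 : (3 * s + 4) ^ 2 = 9 * (k * L) + 24 * s + 16 := by
    rw [← hs2]; ring
  nlinarith

/-- Optimality of the balanced construction for `n ≤ 2k - 3√(k log k)`. -/
theorem N_eq_of_sqrt {n k : ℕ} (hk : Even k) (hk2 : 2 ≤ k) (hkn : k ≤ n)
    (h : (n : ℝ) + 3 * Real.sqrt (k * Real.log k) ≤ 2 * k) :
    N n k = m2 n k := by
  obtain ⟨K, rfl⟩ := hk
  rw [← two_mul] at *
  have hn1 : (1 : ℝ) ≤ n := by
    have : 1 ≤ n := by omega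
    exact_mod_cast this
  have hk' : (2 : ℝ) ≤ ((2 * K : ℕ) : ℝ) := by exact_mod_cast hk2
  have h1 := log_ineq ((2 * K : ℕ) : ℝ) n hk' hn1 h
  have hn4 : n ≤ 4 * K := by
    have : (n : ℝ) ≤ 2 * ((2 * K : ℕ) : ℝ) := by
      have := Real.sqrt_nonneg (((2 * K : ℕ) : ℝ) * Real.log ((2 * K : ℕ) : ℝ))
      linarith
    have h2 : (n : ℝ) ≤ ((4 * K : ℕ) : ℝ) := by
      refine this.trans (le_of_eq ?_)
      push_cast; ring
    exact_mod_cast h2
  rcases Nat.even_or_odd n with hn | hn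
  · obtain ⟨m, rfl⟩ := hn
    rw [← two_mul] at *
    apply crit_even (by omega) (by omega)
    apply tail_small m m K (by omega) (Or.inl rfl) (by omega)
    push_cast at h1
    have e : (m : ℝ) + m = 2 * m := by ring
    rw [e]
    refine h1.trans (le_of_eq ?_)
    ring
  · obtain ⟨m, rfl⟩ := hn
    apply crit_odd (by omega) (by omega)
    apply tail_small (m + 1) m K (by omega) (Or.inr rfl) (by omega)
    push_cast at h1
    push_cast
    have e : (m : ℝ) + 1 + m = 2 * m + 1 := by ring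
    rw [e]
    refine h1.trans (le_of_eq ?_)
    ring

end H75MP939
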