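import Pool.Agent.Lib.MP_939498_co.h75D

/-!
# The balanced construction is not optimal for `n ≥ 2k + 3`
-/

open Finset

namespace H75MP939

/-- The balanced sum. -/
def MM (p m K : ℕ) : ℕ := ∑ i ∈ range (K + 1), p.choose i * m.choose i

/-- The balanced sum for a given `n`. -/
def Mn (n K : ℕ) : ℕ := MM ((n + 1) / 2) (n / 2) K

lemma Mn_even (m K : ℕ) : Mn (2 * m) K = MM m m K := by
  unfold Mn
  have e1 : (2 * m + 1) / 2 = m := by omega
  have e2 : 2 * m / 2 = m := by omega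
  rw [e1, e2]

lemma Mn_odd (m K : ℕ) : Mn (2 * m + 1) K = MM (m + 1) m K := by
  unfold Mn
  have e1 : (2 * m + 1 + 1) / 2 = m + 1 := by omega
  have e2 : (2 * m + 1) / 2 = m := by omega
  rw [e1, e2]

lemma m2_succ (n K : ℕ) : m2 n (2 * K) + 1 = Mn n K := by
  rw [m2_add_one]
  have : 2 * K / 2 = K := by omega
  rw [this]
  rfl

/-! ## Steps -/

lemma choose_step {m i K : ℕ} (hi : i ≤ K) (hK : K ≤ m) :
    (m + 1).choose i * (m + 1 - K) ≤ m.choose i * (m + 1) := by
  rw [Nat.choose_mul_succ_eq]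
  exact Nat.mul_le_mul_left _ (by omega)

/-- From `2m` to `2m+1`. -/
lemma MM_step1 {m K : ℕ} (hK : K ≤ m) :
    MM (m + 1) m K * (m + 1 - K) ≤ MM m m K * (m + 1) := by
  unfold MM
  rw [Finset.sum_mul, Finset.sum_mul]
  apply Finset.sum_le_sum
  intro i hi
  rw [Finset.mem_range] at hi
  calc (m + 1).choose i * m.choose i * (m + 1 - K)
      = ((m + 1).choose i * (m + 1 - K)) * m.choose i := by ring
    _ ≤ (m.choose i * (m + 1)) * m.choose i := Nat.mul_le_mul_right _ (choose_step (by omega) hK)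
    _ = _ := by ring

/-- From `2m+1` to `2m+2`. -/
lemma MM_step2 {m K : ℕ} (hK : K ≤ m) :
    MM (m + 1) (m + 1) K * (m + 1 - K) ≤ MM (m + 1) m K * (m + 1) := by
  unfold MM
  rw [Finset.sum_mul, Finset.sum_mul]
  apply Finset.sum_le_sum
  intro i hi
  rw [Finset.mem_range] at hi
  calc (m + 1).choose i * (m + 1).choose i * (m + 1 - K)
      = (m + 1).choose i * ((m + 1).choose i * (m + 1 - K)) := by ring
    _ ≤ (m + 1).choose i * (m.choose i * (m + 1)) :=
        Nat.mul_le_mul_left _ (choose_step (by omega) hK)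
    _ = _ := by ring

/-- From `2m+1` to `2m+3`. -/
lemma MM_step3 {m K : ℕ} (hK : K ≤ m) :
    MM (m + 2) (m + 1) K * ((m + 2 - K) * (m + 1 - K)) ≤ MM (m + 1) m K * ((m + 2) * (m + 1)) := by
  unfold MM
  rw [Finset.sum_mul, Finset.sum_mul]
  apply Finset.sum_le_sum
  intro i hi
  rw [Finset.mem_range] at hi
  have h1 : (m + 2).choose i * (m + 2 - K) ≤ (m + 1).choose i * (m + 2) :=
    choose_step (m := m + 1) (by omega) (by omega)
  have h2 : (m + 1).choose i * (m + 1 - K) ≤ m.choose i * (m + 1) := choose_step (by omega) hK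
  calc (m + 2).choose i * (m + 1).choose i * ((m + 2 - K) * (m + 1 - K))
      = ((m + 2).choose i * (m + 2 - K)) * ((m + 1).choose i * (m + 1 - K)) := by ring
    _ ≤ ((m + 1).choose i * (m + 2)) * (m.choose i * (m + 1)) := Nat.mul_le_mul h1 h2
    _ = _ := by ring

/-- The ratio to `C(n, 2K)` is nonincreasing. -/
lemma ratio_step {n K : ℕ} (hn : 2 * K ≤ n) :
    Mn (n + 1) K * n.choose (2 * K) ≤ Mn n K * (n + 1).choose (2 * K) := by
  have hc : n.choose (2 * K) * (n + 1) = (n + 1).choose (2 * K) * (n + 1 - 2 * K) :=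
    Nat.choose_mul_succ_eq n (2 * K)
  rcases Nat.even_or_odd n with h | h
  · obtain ⟨m, rfl⟩ := h
    rw [← two_mul] at *
    rw [Mn_even, Mn_odd]
    have h1 := MM_step1 (m := m) (K := K) (by omega)
    obtain ⟨y, rfl⟩ : ∃ y, m = K + y := ⟨m - K, by omega⟩
    have e1 : K + y + 1 - K = y + 1 := by omega
    have e2 : 2 * (K + y) + 1 - 2 * K = 2 * y + 1 := by omega
    rw [e1] at h1
    rw [e2] at hc
    have hpos : 0 < (y + 1) * (2 * y + 1) := by positivity
    apply Nat.le_of_mul_le_mul_right _ hpos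
    set A := MM (K + y + 1) (K + y) K
    set B := MM (K + y) (K + y) K
    set C := (2 * (K + y)).choose (2 * K)
    set C' := (2 * (K + y) + 1).choose (2 * K)
    calc A * C * ((y + 1) * (2 * y + 1)) = (A * (y + 1)) * (C * (2 * y + 1)) := by ring
      _ ≤ (B * (K + y + 1)) * (C * (2 * y + 1)) := Nat.mul_le_mul_right _ h1
      _ = B * C * ((K + y + 1) * (2 * y + 1)) := by ring
      _ ≤ B * C * ((y + 1) * (2 * (K + y) + 1)) := by
          apply Nat.mul_le_mul_left
          nlinarith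
      _ = B * (y + 1) * (C * (2 * (K + y) + 1)) := by ring
      _ = B * (y + 1) * (C' * (2 * y + 1)) := by rw [hc]
      _ = _ := by ring
  · obtain ⟨m, rfl⟩ := h
    have e0 : 2 * m + 1 + 1 = 2 * (m + 1) := by ring
    rw [Mn_odd]
    rw [show Mn (2 * m + 1 + 1) K = MM (m + 1) (m + 1) K by rw [e0, Mn_even]]
    have h1 := MM_step2 (m := m) (K := K) (by omega)
    obtain ⟨y, rfl⟩ : ∃ y, m = K + y := ⟨m - K, by omega⟩
    have e1 : K + y + 1 - K = y + 1 := by omega
    have e2 : 2 * (K + y) + 1 + 1 - 2 * K = 2 * (y + 1) := by omega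
    rw [e1] at h1
    rw [e2] at hc
    have hpos : 0 < (y + 1) * (2 * (y + 1)) := by positivity
    apply Nat.le_of_mul_le_mul_right _ hpos
    set A := MM (K + y + 1) (K + y + 1) K
    set B := MM (K + y + 1) (K + y) K
    set C := (2 * (K + y) + 1).choose (2 * K)
    set C' := (2 * (K + y) + 1 + 1).choose (2 * K)
    calc A * C * ((y + 1) * (2 * (y + 1))) = (A * (y + 1)) * (C * (2 * (y + 1))) := by ring
      _ ≤ (B * (K + y + 1)) * (C * (2 * (y + 1))) := Nat.mul_le_mul_right _ h1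
      _ = B * (y + 1) * (C * (2 * (K + y) + 1 + 1)) := by ring
      _ = B * (y + 1) * (C' * (2 * (y + 1))) := by rw [hc]
      _ = _ := by ring

/-! ## Averaging -/

lemma choose_swap (N j b : ℕ) :
    N.choose j * (N - j).choose b = N.choose b * (N - b).choose j := by
  rcases Nat.lt_or_ge N (j + b) with h | h
  · rcases Nat.lt_or_ge N j with hj | hj
    · rw [Nat.choose_eq_zero_of_lt hj, zero_mul]
      rcases Nat.lt_or_ge N b with hb | hb
      · rw [Nat.choose_eq_zero_of_lt hb, zero_mul]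
      · rw [Nat.choose_eq_zero_of_lt (by omega : N - b < j), mul_zero]
    · rw [Nat.choose_eq_zero_of_lt (by omega : N - j < b), mul_zero]
      rcases Nat.lt_or_ge N b with hb | hb
      · rw [Nat.choose_eq_zero_of_lt hb, zero_mul]
      · rw [Nat.choose_eq_zero_of_lt (by omega : N - b < j), mul_zero]
  · have h1 := Nat.choose_mul (n := N) (k := j + b) (s := j) (by omega)
    have h2 := Nat.choose_mul (n := N) (k := j + b) (s := b) (by omega)
    have e1 : j + b - j = b := by omega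
    have e2 : j + b - b = j := by omega
    rw [e1] at h1
    rw [e2] at h2
    rw [← h1, ← h2]
    congr 1
    exact Nat.choose_symm_of_eq_add (by omega)

lemma avg_identity {n k : ℕ} (hk : 1 ≤ k) (hkn : k ≤ n) :
    ∑ v ∈ range (n + 1), n.choose v * (k - 1) ^ (n - v) * (v * (n - v).choose (k - 1)) =
      n.choose k * k * (k - 1) ^ (k - 1) * k ^ (n - k) := by
  obtain ⟨b, rfl⟩ : ∃ b, k = b + 1 := ⟨k - 1, by omega⟩
  obtain ⟨N, rfl⟩ : ∃ N, n = N + 1 := ⟨n - 1, by omega⟩
  have hb : b ≤ N := by omega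
  rw [Finset.sum_range_succ']
  simp only [Nat.add_sub_cancel, zero_mul, mul_zero, add_zero]
  have hterm : ∀ j ∈ range (N + 1), (N + 1).choose (j + 1) * b ^ (N + 1 - (j + 1)) *
      ((j + 1) * (N + 1 - (j + 1)).choose b) =
      (N + 1).choose (b + 1) * (b + 1) * ((N - b).choose j * b ^ (N - j)) := by
    intro j _
    have e1 : N + 1 - (j + 1) = N - j := by omega
    rw [e1]
    have h1 : (N + 1).choose (j + 1) * (j + 1) = (N + 1) * N.choose j :=
      (Nat.add_one_mul_choose_eq N j).symm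
    have h2 : (N + 1).choose (b + 1) * (b + 1) = (N + 1) * N.choose b :=
      (Nat.add_one_mul_choose_eq N b).symm
    calc (N + 1).choose (j + 1) * b ^ (N - j) * ((j + 1) * (N - j).choose b)
        = ((N + 1).choose (j + 1) * (j + 1)) * (N - j).choose b * b ^ (N - j) := by ring
      _ = (N + 1) * (N.choose j * (N - j).choose b) * b ^ (N - j) := by rw [h1]; ring
      _ = (N + 1) * (N.choose b * (N - b).choose j) * b ^ (N - j) := by rw [choose_swap]
      _ = ((N + 1) * N.choose b) * ((N - b).choose j * b ^ (N - j)) := by ring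
      _ = _ := by rw [h2]
  rw [Finset.sum_congr rfl hterm, ← Finset.mul_sum]
  have e2 : N + 1 - (b + 1) = N - b := by omega
  rw [e2]
  have hsplit : ∑ j ∈ range (N + 1), (N - b).choose j * b ^ (N - j) =
      b ^ b * ∑ j ∈ range (N - b + 1), (N - b).choose j * b ^ (N - b - j) := by
    have hsub : range (N - b + 1) ⊆ range (N + 1) := Finset.range_subset_range.2 (by omega)
    rw [← Finset.sum_subset hsub, Finset.mul_sum]
    · apply Finset.sum_congr rfl
      intro j hj
      rw [Finset.mem_range] at hj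
      have : N - j = b + (N - b - j) := by omega
      rw [this, pow_add]
      ring
    · intro j _ hj
      rw [Finset.mem_range, not_lt] at hj
      rw [Nat.choose_eq_zero_of_lt (by omega), zero_mul]
  have hbin : ∑ j ∈ range (N - b + 1), (N - b).choose j * b ^ (N - b - j) = (b + 1) ^ (N - b) := by
    rw [add_comm b 1, add_pow]
    apply Finset.sum_congr rfl
    intro j _
    rw [one_pow, one_mul, mul_comm]
    simp
  rw [hsplit, hbin]
  ring

lemma avg {n k : ℕ} (hk : 1 ≤ k) (hkn : k ≤ n) :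
    ∃ v ≤ n, (k - 1) ^ (k - 1) * n.choose k ≤ v * (n - v).choose (k - 1) * k ^ (k - 1) := by
  by_contra hcon
  push Not at hcon
  have hsum : ∑ v ∈ range (n + 1), n.choose v * (k - 1) ^ (n - v) = k ^ n := by
    obtain ⟨b, rfl⟩ : ∃ b, k = b + 1 := ⟨k - 1, by omega⟩
    rw [Nat.add_sub_cancel, add_comm b 1, add_pow]
    apply Finset.sum_congr rfl
    intro j _
    rw [one_pow, one_mul, mul_comm]
    simp
  have h1 := avg_identity hk hkn
  have h2 : ∑ v ∈ range (n + 1), n.choose v * (k - 1) ^ (n - v) *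
      (v * (n - v).choose (k - 1) * k ^ (k - 1)) <
      ∑ v ∈ range (n + 1), n.choose v * (k - 1) ^ (n - v) * ((k - 1) ^ (k - 1) * n.choose k) := by
    apply Finset.sum_lt_sum
    · intro v hv
      rw [Finset.mem_range] at hv
      exact Nat.mul_le_mul_left _ (hcon v (by omega)).le
    · refine ⟨n, Finset.mem_range.2 (by omega), ?_⟩
      have := hcon n le_rfl
      have hpos : 0 < n.choose n * (k - 1) ^ (n - n) := by simp
      exact Nat.mul_lt_mul_of_pos_left this hpos
  rw [← Finset.sum_mul, hsum] at h2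
  have h3 : ∑ v ∈ range (n + 1), n.choose v * (k - 1) ^ (n - v) *
      (v * (n - v).choose (k - 1) * k ^ (k - 1)) =
      (∑ v ∈ range (n + 1), n.choose v * (k - 1) ^ (n - v) *
      (v * (n - v).choose (k - 1))) * k ^ (k - 1) := by
    rw [Finset.sum_mul]
    apply Finset.sum_congr rfl
    intro v _
    ring
  rw [h3, h1] at h2
  have h4 : n.choose k * k * (k - 1) ^ (k - 1) * k ^ (n - k) * k ^ (k - 1) =
      k ^ n * ((k - 1) ^ (k - 1) * n.choose k) := by
    have : k ^ n = k * k ^ (n - k) * k ^ (k - 1) := by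
      rw [← pow_succ', ← pow_add]
      congr 1
      omega
    rw [this]
    ring
  rw [h4] at h2
  exact lt_irrefl _ h2

/-- Once the ratio is small at `n1`, the construction with one heavy block beats the balanced
one for all `n ≥ n1`. -/
lemma large_n {K n1 n : ℕ} (hK : 1 ≤ K) (hn1 : 2 * K ≤ n1) (hn : n1 ≤ n)
    (h : Mn n1 K * (2 * K) ^ (2 * K - 1) ≤ (2 * K - 1) ^ (2 * K - 1) * n1.choose (2 * K)) :
    ∃ v ≤ n, Mn n K ≤ v * (n - v).choose (2 * K - 1) := by
  have hmono : Mn n K * n1.choose (2 * K) ≤ Mn n1 K * n.choose (2 * K) := by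
    induction n, hn using Nat.le_induction with
    | base => exact le_rfl
    | succ n hn ih =>
      have h1 := ratio_step (n := n) (K := K) (by omega)
      have hpos : 0 < n.choose (2 * K) := Nat.choose_pos (by omega)
      apply Nat.le_of_mul_le_mul_right _ hpos
      calc Mn (n + 1) K * n1.choose (2 * K) * n.choose (2 * K)
          = (Mn (n + 1) K * n.choose (2 * K)) * n1.choose (2 * K) := by ring
        _ ≤ (Mn n K * (n + 1).choose (2 * K)) * n1.choose (2 * K) := Nat.mul_le_mul_right _ h1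
        _ = (Mn n K * n1.choose (2 * K)) * (n + 1).choose (2 * K) := by ring
        _ ≤ (Mn n1 K * n.choose (2 * K)) * (n + 1).choose (2 * K) := Nat.mul_le_mul_right _ ih
        _ = _ := by ring
  obtain ⟨v, hv, hv2⟩ := avg (n := n) (k := 2 * K) (by omega) (by omega)
  refine ⟨v, hv, ?_⟩
  have hpos : 0 < (2 * K) ^ (2 * K - 1) * n1.choose (2 * K) :=
    Nat.mul_pos (by positivity) (Nat.choose_pos hn1)
  apply Nat.le_of_mul_le_mul_right _ hpos
  calc Mn n K * ((2 * K) ^ (2 * K - 1) * n1.choose (2 * K))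
      = (Mn n K * n1.choose (2 * K)) * (2 * K) ^ (2 * K - 1) := by ring
    _ ≤ (Mn n1 K * n.choose (2 * K)) * (2 * K) ^ (2 * K - 1) := Nat.mul_le_mul_right _ hmono
    _ = (Mn n1 K * (2 * K) ^ (2 * K - 1)) * n.choose (2 * K) := by ring
    _ ≤ ((2 * K - 1) ^ (2 * K - 1) * n1.choose (2 * K)) * n.choose (2 * K) :=
        Nat.mul_le_mul_right _ h
    _ = ((2 * K - 1) ^ (2 * K - 1) * n.choose (2 * K)) * n1.choose (2 * K) := by ring
    _ ≤ (v * (n - v).choose (2 * K - 1) * (2 * K) ^ (2 * K - 1)) * n1.choose (2 * K) :=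
        Nat.mul_le_mul_right _ hv2
    _ = _ := by ring

/-! ## Central binomial bounds -/

lemma cb_upper (j : ℕ) : j.centralBinom ^ 2 * (3 * j + 1) ≤ 16 ^ j := by
  induction j with
  | zero => simp
  | succ j ih =>
    have h1 := Nat.succ_mul_centralBinom_succ j
    have hpos : 0 < (j + 1) ^ 2 * (3 * j + 1) := by positivity
    apply Nat.le_of_mul_le_mul_right _ hpos
    calc (j + 1).centralBinom ^ 2 * (3 * (j + 1) + 1) * ((j + 1) ^ 2 * (3 * j + 1))
        = ((j + 1) * (j + 1).centralBinom) ^ 2 * ((3 * j + 4) * (3 * j + 1)) := by ring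
      _ = (2 * (2 * j + 1) * j.centralBinom) ^ 2 * ((3 * j + 4) * (3 * j + 1)) := by rw [h1]
      _ = (j.centralBinom ^ 2 * (3 * j + 1)) * (4 * (2 * j + 1) ^ 2 * (3 * j + 4)) := by ring
      _ ≤ 16 ^ j * (4 * (2 * j + 1) ^ 2 * (3 * j + 4)) := Nat.mul_le_mul_right _ ih
      _ ≤ 16 ^ j * (16 * ((j + 1) ^ 2 * (3 * j + 1))) := by
          apply Nat.mul_le_mul_left
          nlinarith
      _ = _ := by ring

lemma cb_lower (j : ℕ) (hj : 1 ≤ j) : 16 ^ j ≤ j.centralBinom ^ 2 * (4 * j) := by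
  induction j, hj using Nat.le_induction with
  | base => decide
  | succ j hj ih =>
    have h1 := Nat.succ_mul_centralBinom_succ j
    have hpos : 0 < (j + 1) ^ 2 * j := by positivity
    apply Nat.le_of_mul_le_mul_right _ hpos
    calc 16 ^ (j + 1) * ((j + 1) ^ 2 * j) = 16 ^ j * (16 * ((j + 1) ^ 2 * j)) := by ring
      _ ≤ (j.centralBinom ^ 2 * (4 * j)) * (16 * ((j + 1) ^ 2 * j)) := Nat.mul_le_mul_right _ ih
      _ = (j.centralBinom ^ 2 * (4 * (j + 1))) * j * (16 * (j * (j + 1))) := by ring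
      _ ≤ (j.centralBinom ^ 2 * (4 * (j + 1))) * j * (4 * (2 * j + 1) ^ 2) := by
          apply Nat.mul_le_mul_left
          nlinarith
      _ = (2 * (2 * j + 1) * j.centralBinom) ^ 2 * (4 * (j + 1)) * j := by ring
      _ = ((j + 1) * (j + 1).centralBinom) ^ 2 * (4 * (j + 1)) * j := by rw [h1]
      _ = _ := by ring

/-! ## The induction with `v = 2` -/

/-- `X_m`, with `m = K + y`. -/
def X (K y : ℕ) : Prop :=
  MM (K + y + 1) (K + y) K * ((K + y + 1) * (2 * y + 1)) ≤
    4 * (2 * (K + y) - 1).choose (2 * K - 1) * ((K + y) * (y + 1))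

lemma X_step {K y : ℕ} (hK : 18 ≤ K) (hy : K + 1 ≤ y) (hy2 : 2 * (K + y) + 5 ≤ 5 * K)
    (h : X K y) : X K (y + 1) := by
  unfold X at *
  have e1 : K + (y + 1) + 1 = K + y + 2 := by ring
  have e2 : K + (y + 1) = K + y + 1 := by ring
  have e3 : 2 * (K + y + 1) - 1 = 2 * (K + y) + 1 := by omega
  rw [e1, e2, e3]
  set m := K + y with hm
  have h3 := MM_step3 (m := m) (K := K) (by omega)
  have e4 : m + 2 - K = y + 2 := by omega
  have e5 : m + 1 - K = y + 1 := by omega
  rw [e4, e5] at h3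
  -- binomials
  have hB1 : (2 * m - 1).choose (2 * K - 1) * (2 * m) = (2 * m).choose (2 * K - 1) * (2 * y + 1) := by
    have := Nat.choose_mul_succ_eq (2 * m - 1) (2 * K - 1)
    have f1 : 2 * m - 1 + 1 = 2 * m := by omega
    have f2 : 2 * m - (2 * K - 1) = 2 * y + 1 := by omega
    rw [f1, f2] at this
    exact this
  have hB2 : (2 * m).choose (2 * K - 1) * (2 * m + 1) =
      (2 * m + 1).choose (2 * K - 1) * (2 * y + 2) := by
    have := Nat.choose_mul_succ_eq (2 * m) (2 * K - 1)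
    have f2 : 2 * m + 1 - (2 * K - 1) = 2 * y + 2 := by omega
    rw [f2] at this
    exact this
  set S := MM (m + 1) m K
  set S' := MM (m + 2) (m + 1) K
  set B := (2 * m - 1).choose (2 * K - 1)
  set B' := (2 * m).choose (2 * K - 1)
  set B'' := (2 * m + 1).choose (2 * K - 1)
  have hpoly : (y + 1) * (2 * y + 3) * (m + 2) ^ 2 ≤ (2 * m + 1) * (m + 1) * (y + 2) ^ 2 := by
    -- m ≥ 15 and 5 y + 5 ≤ 3 m
    have g1 : 5 * y + 5 ≤ 3 * m := by omega
    have g2 : 37 ≤ m := by omega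
    zify
    have g1' : (5 : ℤ) * y + 5 ≤ 3 * m := by exact_mod_cast g1
    have g2' : (37 : ℤ) ≤ m := by exact_mod_cast g2
    have g3' : (0 : ℤ) ≤ y := Int.natCast_nonneg y
    have key : (2 * (m : ℤ) + 1) * (m + 1) * (y + 2) ^ 2 - (y + 1) * (2 * y + 3) * (m + 2) ^ 2 =
        m * y * (3 * m - 5 * y) + 5 * m ^ 2 - 8 * m * y - 7 * y ^ 2 - 16 * y - 8 := by ring
    have k1 : (m : ℤ) * y * (3 * m - 5 * y) ≥ 5 * (m * y) := by
      have : (0 : ℤ) ≤ m * y := by positivity
      nlinarith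
    have k2 : (5 : ℤ) * y ≤ 3 * m - 5 := by linarith
    have k3 : (25 : ℤ) * y ^ 2 ≤ (3 * m - 5) ^ 2 := by nlinarith
    have k4 : (5 : ℤ) * (m * y) ≤ m * (3 * m - 5) := by nlinarith
    nlinarith
  have hpos : 0 < (y + 2) * (y + 1) * (2 * y + 1) := by positivity
  apply Nat.le_of_mul_le_mul_right _ hpos
  calc S' * ((m + 2) * (2 * (y + 1) + 1)) * ((y + 2) * (y + 1) * (2 * y + 1))
      = (S' * ((y + 2) * (y + 1))) * ((m + 2) * (2 * y + 3) * (2 * y + 1)) := by ring
    _ ≤ (S * ((m + 2) * (m + 1))) * ((m + 2) * (2 * y + 3) * (2 * y + 1)) :=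
        Nat.mul_le_mul_right _ h3
    _ = (S * ((m + 1) * (2 * y + 1))) * ((m + 2) ^ 2 * (2 * y + 3)) := by ring
    _ ≤ (4 * B * (m * (y + 1))) * ((m + 2) ^ 2 * (2 * y + 3)) := Nat.mul_le_mul_right _ h
    _ = 4 * B * m * ((y + 1) * (2 * y + 3) * (m + 2) ^ 2) := by ring
    _ ≤ 4 * B * m * ((2 * m + 1) * (m + 1) * (y + 2) ^ 2) := Nat.mul_le_mul_left _ hpoly
    _ = 2 * (B * (2 * m)) * (2 * m + 1) * (m + 1) * (y + 2) ^ 2 := by ring
    _ = 2 * (B' * (2 * m + 1)) * (2 * y + 1) * (m + 1) * (y + 2) ^ 2 := by rw [hB1]; ring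
    _ = 2 * (B'' * (2 * y + 2)) * (2 * y + 1) * (m + 1) * (y + 2) ^ 2 := by rw [hB2]
    _ = _ := by ring

lemma X_odd {K y : ℕ} (hK : 1 ≤ K) (hy : K ≤ y) (h : X K y) :
    Mn (2 * (K + y) + 1) K ≤ 2 * (2 * (K + y) + 1 - 2).choose (2 * K - 1) := by
  rw [Mn_odd]
  have e : 2 * (K + y) + 1 - 2 = 2 * (K + y) - 1 := by omega
  rw [e]
  unfold X at h
  set S := MM (K + y + 1) (K + y) K
  set B := (2 * (K + y) - 1).choose (2 * K - 1)
  have hpos : 0 < (K + y + 1) * (2 * y + 1) := by positivity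
  apply Nat.le_of_mul_le_mul_right _ hpos
  refine h.trans ?_
  calc 4 * B * ((K + y) * (y + 1)) = 2 * B * ((K + y) * (2 * y + 2)) := by ring
    _ ≤ 2 * B * ((K + y + 1) * (2 * y + 1)) := by
        apply Nat.mul_le_mul_left
        nlinarith

lemma X_even {K y : ℕ} (hK : 1 ≤ K) (h : X K y) :
    Mn (2 * (K + y) + 2) K ≤ 2 * (2 * (K + y) + 2 - 2).choose (2 * K - 1) := by
  have e0 : 2 * (K + y) + 2 = 2 * (K + y + 1) := by ring
  rw [show Mn (2 * (K + y) + 2) K = MM (K + y + 1) (K + y + 1) K by rw [e0, Mn_even]]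
  have e : 2 * (K + y) + 2 - 2 = 2 * (K + y) := by omega
  rw [e]
  unfold X at h
  have h2 := MM_step2 (m := K + y) (K := K) (by omega)
  have e5 : K + y + 1 - K = y + 1 := by omega
  rw [e5] at h2
  have hB1 : (2 * (K + y) - 1).choose (2 * K - 1) * (2 * (K + y)) =
      (2 * (K + y)).choose (2 * K - 1) * (2 * y + 1) := by
    have := Nat.choose_mul_succ_eq (2 * (K + y) - 1) (2 * K - 1)
    have f1 : 2 * (K + y) - 1 + 1 = 2 * (K + y) := by omega
    have f2 : 2 * (K + y) - (2 * K - 1) = 2 * y + 1 := by omega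
    rw [f1, f2] at this
    exact this
  set S := MM (K + y + 1) (K + y) K
  set S' := MM (K + y + 1) (K + y + 1) K
  set B := (2 * (K + y) - 1).choose (2 * K - 1)
  set B' := (2 * (K + y)).choose (2 * K - 1)
  have hpos : 0 < (y + 1) * (2 * y + 1) := by positivity
  apply Nat.le_of_mul_le_mul_right _ hpos
  calc S' * ((y + 1) * (2 * y + 1)) = (S' * (y + 1)) * (2 * y + 1) := by ring
    _ ≤ (S * (K + y + 1)) * (2 * y + 1) := Nat.mul_le_mul_right _ h2
    _ = S * ((K + y + 1) * (2 * y + 1)) := by ring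
    _ ≤ 4 * B * ((K + y) * (y + 1)) := h
    _ = 2 * (B * (2 * (K + y))) * (y + 1) := by ring
    _ = 2 * (B' * (2 * y + 1)) * (y + 1) := by rw [hB1]
    _ = _ := by ring

/-! ## The base case `n = 4K + 3` -/

lemma telescope (m J : ℕ) : t m (J + 1) =
    ∑ j ∈ range (J + 1), (m + 1).choose j * m.choose j + m.choose (J + 1) * m.choose J := by
  induction J with
  | zero => simp [t, T]; ring
  | succ J ih =>
    have h1 : t m (J + 1 + 1) = t m (J + 1) + T m (J + 1) := Finset.sum_range_succ _ _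
    rw [h1, ih, Finset.sum_range_succ _ (J + 1)]
    unfold T
    have h2 : (m + 1).choose (J + 1 + 1) = m.choose (J + 1) + m.choose (J + 2) :=
      Nat.choose_succ_succ _ _
    have h3 : (m + 1).choose (J + 1) = m.choose J + m.choose (J + 1) :=
      Nat.choose_succ_succ _ _
    rw [h2, h3]
    ring

lemma base_sum (K : ℕ) : 2 * MM (2 * K + 2) (2 * K + 1) K + (2 * K + 1).choose K ^ 2 =
    (4 * K + 3).choose (2 * K + 1) := by
  have h1 := head_add_tail (2 * K + 2) (2 * K + 1) K (by omega)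
  have h2 := tail_odd_eq (2 * K + 1) K (by omega)
  have e1 : 2 * K + 1 - K = K + 1 := by omega
  have e2 : 2 * K + 1 + 1 = 2 * K + 2 := rfl
  rw [e1, e2, telescope, e2] at h2
  have e3 : (2 * K + 1).choose (K + 1) = (2 * K + 1).choose K :=
    Nat.choose_symm_of_eq_add (by omega)
  rw [e3] at h2
  have e4 : 2 * K + 2 + (2 * K + 1) = 4 * K + 3 := by ring
  rw [e4] at h1
  unfold MM
  rw [h2] at h1
  rw [← h1]
  ring

lemma X_base {K : ℕ} (hK : 18 ≤ K) : X K (K + 1) := by
  unfold X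
  have e1 : K + (K + 1) + 1 = 2 * K + 2 := by ring
  have e2 : K + (K + 1) = 2 * K + 1 := by ring
  have e3 : 2 * (2 * K + 1) - 1 = 4 * K + 1 := by omega
  rw [e1, e2, e3]
  have hsum := base_sum K
  set S := MM (2 * K + 2) (2 * K + 1) K
  set c := (2 * K + 1).choose K with hc
  set B := (4 * K + 1).choose (2 * K - 1) with hB
  -- V * K = B * (4K+3)
  have hV : (4 * K + 3).choose (2 * K + 1) * K = B * (4 * K + 3) := by
    obtain ⟨b, rfl⟩ : ∃ b, K = b + 1 := ⟨K - 1, by omega⟩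
    have f1 : 4 * (b + 1) + 3 = 4 * b + 6 + 1 := by ring
    have f2 : 2 * (b + 1) + 1 = 2 * b + 2 + 1 := by ring
    have f3 : 4 * (b + 1) + 1 = 4 * b + 5 := by ring
    have f4 : 2 * (b + 1) - 1 = 2 * b + 1 := by omega
    rw [hB, f1, f2, f3, f4]
    have g1 : (4 * b + 6 + 1).choose (2 * b + 2 + 1) * (2 * b + 2 + 1) =
        (4 * b + 6 + 1) * (4 * b + 6).choose (2 * b + 2) :=
      (Nat.add_one_mul_choose_eq (4 * b + 6) (2 * b + 2)).symm
    have g2 : (4 * b + 5 + 1).choose (2 * b + 1 + 1) * (2 * b + 1 + 1) =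
        (4 * b + 5 + 1) * (4 * b + 5).choose (2 * b + 1) :=
      (Nat.add_one_mul_choose_eq (4 * b + 5) (2 * b + 1)).symm
    have g3 : (4 * b + 6).choose (2 * b + 2) * (2 * b + 2) =
        (4 * b + 6) * (4 * b + 5).choose (2 * b + 1) := g2
    have hpos : 0 < 2 * (2 * b + 3) := by positivity
    apply Nat.eq_of_mul_eq_mul_right hpos
    calc (4 * b + 6 + 1).choose (2 * b + 2 + 1) * (b + 1) * (2 * (2 * b + 3))
        = ((4 * b + 6 + 1).choose (2 * b + 2 + 1) * (2 * b + 2 + 1)) * (2 * b + 2) := by ring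
      _ = (4 * b + 6 + 1) * ((4 * b + 6).choose (2 * b + 2) * (2 * b + 2)) := by rw [g1]; ring
      _ = _ := by rw [g3]; ring
  -- c ^ 2 * (K + 1) ≥ 16 ^ K
  have h2c : 2 * c = (K + 1).centralBinom := by
    rw [Nat.centralBinom_eq_two_mul_choose]
    have f : 2 * (K + 1) = 2 * K + 1 + 1 := by ring
    rw [f, Nat.choose_succ_succ]
    have : (2 * K + 1).choose (K + 1) = (2 * K + 1).choose K :=
      Nat.choose_symm_of_eq_add (by omega)
    rw [this]; ring
  have hclow : 16 ^ K ≤ c ^ 2 * (K + 1) := by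
    have := cb_lower (K + 1) (by omega)
    rw [← h2c] at this
    have e : 16 ^ (K + 1) = 16 * 16 ^ K := by ring
    rw [e] at this
    have e' : (2 * c) ^ 2 * (4 * (K + 1)) = 16 * (c ^ 2 * (K + 1)) := by ring
    rw [e'] at this
    exact Nat.le_of_mul_le_mul_left this (by norm_num)
  -- 5 B ≤ 16 ^ K
  have hBup : 5 * B ≤ 16 ^ K := by
    have g1 : B ≤ (4 * K + 1).choose (2 * K) := choose_mono_half (by omega) (by omega)
    have g2 : 2 * (4 * K + 1).choose (2 * K) = (2 * K + 1).centralBinom := by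
      rw [Nat.centralBinom_eq_two_mul_choose]
      have f : 2 * (2 * K + 1) = 4 * K + 1 + 1 := by ring
      rw [f, Nat.choose_succ_succ]
      have : (4 * K + 1).choose (2 * K + 1) = (4 * K + 1).choose (2 * K) :=
        Nat.choose_symm_of_eq_add (by omega)
      rw [this]; ring
    have g3 := cb_upper (2 * K + 1)
    have g4 : (10 * (2 * K + 1).centralBinom) ^ 2 ≤ (4 * 16 ^ K) ^ 2 := by
      calc (10 * (2 * K + 1).centralBinom) ^ 2 = (2 * K + 1).centralBinom ^ 2 * 100 := by ring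
        _ ≤ (2 * K + 1).centralBinom ^ 2 * (3 * (2 * K + 1) + 1) :=
            Nat.mul_le_mul_left _ (by omega)
        _ ≤ 16 ^ (2 * K + 1) := g3
        _ = (4 * 16 ^ K) ^ 2 := by
            rw [pow_succ, pow_mul, mul_pow, ← pow_mul, ← pow_mul, mul_comm 2 K]
            ring
    have g5 : 10 * (2 * K + 1).centralBinom ≤ 4 * 16 ^ K :=
      (Nat.pow_le_pow_iff_left (by norm_num)).1 g4
    omega
  have hmain : B * (6 * K ^ 2 + 19 * K + 9) ≤ c ^ 2 * (K * (K + 1) * (2 * K + 3)) := by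
    calc B * (6 * K ^ 2 + 19 * K + 9) ≤ B * (5 * (K * (2 * K + 3))) := by
          apply Nat.mul_le_mul_left
          nlinarith
      _ = (5 * B) * (K * (2 * K + 3)) := by ring
      _ ≤ 16 ^ K * (K * (2 * K + 3)) := Nat.mul_le_mul_right _ hBup
      _ ≤ (c ^ 2 * (K + 1)) * (K * (2 * K + 3)) := Nat.mul_le_mul_right _ hclow
      _ = _ := by ring
  have hpos : 0 < K := by omega
  apply Nat.le_of_mul_le_mul_right _ hpos
  have h3 : 2 * S * K + c ^ 2 * K = B * (4 * K + 3) := by rw [← hV, ← hsum]; ring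
  have h4 : (2 * S * K) * ((K + 1) * (2 * K + 3)) + c ^ 2 * (K * (K + 1) * (2 * K + 3)) =
      B * ((4 * K + 3) * ((K + 1) * (2 * K + 3))) := by
    calc (2 * S * K) * ((K + 1) * (2 * K + 3)) + c ^ 2 * (K * (K + 1) * (2 * K + 3))
        = (2 * S * K + c ^ 2 * K) * ((K + 1) * (2 * K + 3)) := by ring
      _ = _ := by rw [h3]; ring
  have h5 : B * ((4 * K + 3) * ((K + 1) * (2 * K + 3))) =
      4 * B * ((2 * K + 1) * (K + 1 + 1)) * K + B * (6 * K ^ 2 + 19 * K + 9) := by ring
  have h6 : S * ((2 * K + 2) * (2 * (K + 1) + 1)) * K = (2 * S * K) * ((K + 1) * (2 * K + 3)) := by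
    ring
  rw [h6]
  omega

/-! ## The ratio at `n1 = 2m` -/

lemma geo_bound {m K : ℕ} (h : 5 * K ≤ 2 * m + 2) : 5 * MM m m K ≤ 9 * (m.choose K) ^ 2 := by
  have key : ∀ i ≤ K, 5 * MM m m i ≤ 9 * (m.choose i) ^ 2 := by
    intro i
    induction i with
    | zero => intro _; simp [MM]
    | succ i ih =>
      intro hi
      have h1 := ih (by omega)
      have h2 : MM m m (i + 1) = MM m m i + m.choose (i + 1) * m.choose (i + 1) :=
        Finset.sum_range_succ _ _
      have h3 : 3 * m.choose i ≤ 2 * m.choose (i + 1) := by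
        have g1 := Nat.choose_succ_right_eq m i
        have g2 : 3 * (i + 1) ≤ 2 * (m - i) := by omega
        have hpos : 0 < i + 1 := by omega
        apply Nat.le_of_mul_le_mul_right _ hpos
        calc 3 * m.choose i * (i + 1) = m.choose i * (3 * (i + 1)) := by ring
          _ ≤ m.choose i * (2 * (m - i)) := Nat.mul_le_mul_left _ g2
          _ = 2 * (m.choose i * (m - i)) := by ring
          _ = 2 * (m.choose (i + 1) * (i + 1)) := by rw [g1]
          _ = _ := by ring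
      have h4 : 9 * (m.choose i) ^ 2 ≤ 4 * (m.choose (i + 1)) ^ 2 := by
        calc 9 * (m.choose i) ^ 2 = (3 * m.choose i) ^ 2 := by ring
          _ ≤ (2 * m.choose (i + 1)) ^ 2 := Nat.pow_le_pow_left h3 2
          _ = _ := by ring
      rw [h2, mul_add]
      have h5 : m.choose (i + 1) * m.choose (i + 1) = (m.choose (i + 1)) ^ 2 := by ring
      rw [h5]
      omega
  exact key K le_rfl

lemma choose_cb {m K : ℕ} (hK : K ≤ m) : (m.choose K) ^ 2 * m.centralBinom =
    (2 * m).choose (2 * K) * (K.centralBinom * (m - K).centralBinom) := by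
  obtain ⟨y, rfl⟩ : ∃ y, m = K + y := ⟨m - K, by omega⟩
  have e : K + y - K = y := by omega
  rw [e]
  have h1 := Nat.add_choose_mul_factorial_mul_factorial y K
  have h2 := Nat.add_choose_mul_factorial_mul_factorial (2 * y) (2 * K)
  have h3 : ∀ j : ℕ, j.centralBinom * (j.factorial * j.factorial) = (2 * j).factorial := by
    intro j
    have := Nat.add_choose_mul_factorial_mul_factorial j j
    rw [← two_mul] at this
    rw [Nat.centralBinom_eq_two_mul_choose, ← this]
    ring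
  have e1 : y + K = K + y := by ring
  have e2 : 2 * y + 2 * K = 2 * (K + y) := by ring
  rw [e1] at h1
  rw [e2] at h2
  have hpos : 0 < (y.factorial * K.factorial) ^ 2 * ((2 * y).factorial * (2 * K).factorial) := by
    positivity
  apply Nat.eq_of_mul_eq_mul_right hpos
  have h1' : (K + y).choose K * (y.factorial * K.factorial) = (K + y).factorial := by
    rw [← h1]; ring
  have h2' : (2 * (K + y)).choose (2 * K) * ((2 * y).factorial * (2 * K).factorial) =
      (2 * (K + y)).factorial := by rw [← h2]; ring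
  calc (K + y).choose K ^ 2 * (K + y).centralBinom *
        ((y.factorial * K.factorial) ^ 2 * ((2 * y).factorial * (2 * K).factorial))
      = ((K + y).centralBinom * (((K + y).choose K * (y.factorial * K.factorial)) *
        ((K + y).choose K * (y.factorial * K.factorial)))) *
        ((2 * y).factorial * (2 * K).factorial) := by ring
    _ = (2 * (K + y)).factorial * ((2 * y).factorial * (2 * K).factorial) := by
        rw [h1', h3 (K + y)]
    _ = ((2 * (K + y)).choose (2 * K) * ((2 * y).factorial * (2 * K).factorial)) *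
        ((y.centralBinom * (y.factorial * y.factorial)) *
        (K.centralBinom * (K.factorial * K.factorial))) := by rw [h2', h3 y, h3 K]
    _ = _ := by ring

lemma choose_four {m K : ℕ} (hK : K ≤ m) (hm : 1 ≤ m) :
    ((m.choose K) ^ 2) ^ 2 * ((3 * K + 1) * (3 * (m - K) + 1)) ≤
      4 * m * ((2 * m).choose (2 * K)) ^ 2 := by
  have h1 := choose_cb hK
  have h2 := cb_upper K
  have h3 := cb_upper (m - K)
  have h4 := cb_lower m hm
  have hpos : 0 < 16 ^ m := by positivity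
  apply Nat.le_of_mul_le_mul_right _ hpos
  calc ((m.choose K) ^ 2) ^ 2 * ((3 * K + 1) * (3 * (m - K) + 1)) * 16 ^ m
      ≤ ((m.choose K) ^ 2) ^ 2 * ((3 * K + 1) * (3 * (m - K) + 1)) *
        (m.centralBinom ^ 2 * (4 * m)) := Nat.mul_le_mul_left _ h4
    _ = ((m.choose K) ^ 2 * m.centralBinom) ^ 2 * ((3 * K + 1) * (3 * (m - K) + 1)) * (4 * m) := by
        ring
    _ = 4 * m * ((2 * m).choose (2 * K)) ^ 2 * ((K.centralBinom ^ 2 * (3 * K + 1)) *
        ((m - K).centralBinom ^ 2 * (3 * (m - K) + 1))) := by rw [h1]; ring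
    _ ≤ 4 * m * ((2 * m).choose (2 * K)) ^ 2 * (16 ^ K * 16 ^ (m - K)) :=
        Nat.mul_le_mul_left _ (Nat.mul_le_mul h2 h3)
    _ = 4 * m * ((2 * m).choose (2 * K)) ^ 2 * 16 ^ m := by
        rw [← pow_add]
        congr 2
        omega

lemma exp_bound (k : ℕ) (hk : 2 ≤ k) :
    ((k : ℝ)) ^ (k - 1) ≤ Real.exp 1 * ((k : ℝ) - 1) ^ (k - 1) := by
  have h1 : (0 : ℝ) < (k : ℝ) - 1 := by
    have : (2 : ℝ) ≤ k := by exact_mod_cast hk
    linarith
  have h2 : (k : ℝ) = ((k : ℝ) - 1) * (1 + 1 / ((k : ℝ) - 1)) := by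
    field_simp
    ring
  have h3 : (1 + 1 / ((k : ℝ) - 1)) ≤ Real.exp (1 / ((k : ℝ) - 1)) := by
    have := Real.add_one_le_exp (1 / ((k : ℝ) - 1))
    linarith
  have h4 : (1 + 1 / ((k : ℝ) - 1)) ^ (k - 1) ≤ Real.exp 1 := by
    calc (1 + 1 / ((k : ℝ) - 1)) ^ (k - 1) ≤ (Real.exp (1 / ((k : ℝ) - 1))) ^ (k - 1) :=
          pow_le_pow_left₀ (by positivity) h3 _
      _ = Real.exp 1 := by
          rw [← Real.exp_nat_mul, Nat.cast_sub (by omega)]
          congr 1
          push_cast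
          field_simp
  calc ((k : ℝ)) ^ (k - 1) = (((k : ℝ) - 1) * (1 + 1 / ((k : ℝ) - 1))) ^ (k - 1) := by rw [← h2]
    _ = ((k : ℝ) - 1) ^ (k - 1) * (1 + 1 / ((k : ℝ) - 1)) ^ (k - 1) := mul_pow _ _ _
    _ ≤ ((k : ℝ) - 1) ^ (k - 1) * Real.exp 1 :=
        mul_le_mul_of_nonneg_left h4 (by positivity)
    _ = _ := mul_comm _ _

lemma ratio_n1 {K m : ℕ} (hK : 18 ≤ K) (hm1 : 5 * K ≤ 2 * m + 2) (hm2 : 2 * m + 1 ≤ 5 * K) :
    Mn (2 * m) K * (2 * K) ^ (2 * K - 1) ≤ (2 * K - 1) ^ (2 * K - 1) * (2 * m).choose (2 * K) := by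
  rw [Mn_even]
  have h1 := geo_bound hm1
  have h2 := choose_four (m := m) (K := K) (by omega) (by omega)
  set A := MM m m K
  set C := (2 * m).choose (2 * K)
  -- 25 A^2 (3K+1)(3(m-K)+1) ≤ 324 m C^2
  have h3 : 25 * A ^ 2 * ((3 * K + 1) * (3 * (m - K) + 1)) ≤ 324 * m * C ^ 2 := by
    calc 25 * A ^ 2 * ((3 * K + 1) * (3 * (m - K) + 1))
        = (5 * A) ^ 2 * ((3 * K + 1) * (3 * (m - K) + 1)) := by ring
      _ ≤ (9 * (m.choose K) ^ 2) ^ 2 * ((3 * K + 1) * (3 * (m - K) + 1)) :=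
          Nat.mul_le_mul_right _ (Nat.pow_le_pow_left h1 2)
      _ = 81 * (((m.choose K) ^ 2) ^ 2 * ((3 * K + 1) * (3 * (m - K) + 1))) := by ring
      _ ≤ 81 * (4 * m * C ^ 2) := Nat.mul_le_mul_left _ h2
      _ = _ := by ring
  -- 7.39 * 324 m ≤ 25 (3K+1)(3(m-K)+1)
  have h4 : 739 * (324 * m) ≤ 100 * (25 * ((3 * K + 1) * (3 * (m - K) + 1))) := by
    obtain ⟨y, rfl⟩ : ∃ y, m = K + y := ⟨m - K, by omega⟩
    have e : K + y - K = y := by omega
    rw [e]
    have g1 : 3 * K ≤ 2 * y + 2 := by omega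
    have g2 : 2 * y + 1 ≤ 3 * K := by omega
    nlinarith
  have h5 : 739 * A ^ 2 ≤ 100 * C ^ 2 := by
    have hm0 : 0 < m := by omega
    have g1 : (739 * A ^ 2) * (324 * m) ≤ (100 * C ^ 2) * (324 * m) := by
      calc (739 * A ^ 2) * (324 * m) = A ^ 2 * (739 * (324 * m)) := by ring
        _ ≤ A ^ 2 * (100 * (25 * ((3 * K + 1) * (3 * (m - K) + 1)))) := Nat.mul_le_mul_left _ h4
        _ = 100 * (25 * A ^ 2 * ((3 * K + 1) * (3 * (m - K) + 1))) := by ring
        _ ≤ 100 * (324 * m * C ^ 2) := Nat.mul_le_mul_left _ h3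
        _ = _ := by ring
    exact Nat.le_of_mul_le_mul_right g1 (by positivity)
  have h6 : Real.exp 1 * (A : ℝ) ≤ C := by
    have hexp : Real.exp 1 < 2.7182818286 := Real.exp_one_lt_d9
    apply le_of_sq_le_sq _ (Nat.cast_nonneg C)
    have h5' : 739 * (A : ℝ) ^ 2 ≤ 100 * (C : ℝ) ^ 2 := by exact_mod_cast h5
    have h7 : (Real.exp 1) ^ 2 ≤ 7.39 := by
      have : (0 : ℝ) < Real.exp 1 := Real.exp_pos 1
      nlinarith
    rw [mul_pow]
    nlinarith [sq_nonneg (A : ℝ)]
  have h8 := exp_bound (2 * K) (by omega)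
  have h9 : ((A * (2 * K) ^ (2 * K - 1) : ℕ) : ℝ) ≤ (((2 * K - 1) ^ (2 * K - 1) * C : ℕ) : ℝ) := by
    have e1 : (((2 * K - 1 : ℕ)) : ℝ) = ((2 * K : ℕ) : ℝ) - 1 := by
      rw [Nat.cast_sub (by omega)]; push_cast; ring
    have hpos : (0 : ℝ) ≤ (((2 * K : ℕ) : ℝ) - 1) ^ (2 * K - 1) := by
      rw [← e1]; positivity
    calc ((A * (2 * K) ^ (2 * K - 1) : ℕ) : ℝ) = (A : ℝ) * ((2 * K : ℕ) : ℝ) ^ (2 * K - 1) := by
          push_cast; ring
      _ ≤ (A : ℝ) * (Real.exp 1 * (((2 * K : ℕ) : ℝ) - 1) ^ (2 * K - 1)) :=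
          mul_le_mul_of_nonneg_left h8 (Nat.cast_nonneg A)
      _ = (((2 * K : ℕ) : ℝ) - 1) ^ (2 * K - 1) * (Real.exp 1 * A) := by ring
      _ ≤ (((2 * K : ℕ) : ℝ) - 1) ^ (2 * K - 1) * C := mul_le_mul_of_nonneg_left h6 hpos
      _ = _ := by rw [← e1]; push_cast; ring
  exact_mod_cast h9

/-! ## Small `K` -/

/-- Fast binomial coefficients. -/
def bin (n k : ℕ) : ℕ := n.descFactorial k / k.factorial

lemma bin_eq (n k : ℕ) : bin n k = n.choose k :=
  (Nat.choose_eq_descFactorial_div_factorial n k).symm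

/-- Fast sums. -/
def sumTo (f : ℕ → ℕ) : ℕ → ℕ
  | 0 => 0
  | i + 1 => sumTo f i + f i

lemma sumTo_eq (f : ℕ → ℕ) (n : ℕ) : sumTo f n = ∑ i ∈ range n, f i := by
  induction n with
  | zero => rfl
  | succ n ih => rw [Finset.sum_range_succ, ← ih]; rfl

def MnB (n K : ℕ) : ℕ := sumTo (fun i => bin ((n + 1) / 2) i * bin (n / 2) i) (K + 1)

lemma MnB_eq (n K : ℕ) : MnB n K = Mn n K := by
  unfold MnB Mn MM
  rw [sumTo_eq]
  apply Finset.sum_congr rfl
  intro i _
  rw [bin_eq, bin_eq]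

/-- The thresholds for small `K`. -/
def n1 (K : ℕ) : ℕ := ([25, 29, 33, 36, 40, 44, 48, 52, 56, 60, 64, 68, 72, 76] : List ℕ).getD (K - 4) 0

/-- The check at one value of `K`. -/
def checkK (K : ℕ) : Bool :=
  decide (2 * K ≤ n1 K) &&
  (List.range (n1 K - (4 * K + 3))).all (fun j =>
    decide (MnB (4 * K + 3 + j) K ≤ 2 * bin (4 * K + 3 + j - 2) (2 * K - 1))) &&
  decide (MnB (n1 K) K * (2 * K) ^ (2 * K - 1) ≤ (2 * K - 1) ^ (2 * K - 1) * bin (n1 K) (2 * K))

lemma check_all : (List.range 14).all (fun j => checkK (4 + j)) = true := by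
  decide +kernel

lemma small_K {K n : ℕ} (hK : 4 ≤ K) (hK2 : K < 18) (hn : 4 * K + 3 ≤ n) :
    ∃ v ≤ n, Mn n K ≤ v * (n - v).choose (2 * K - 1) := by
  have h1 := check_all
  rw [List.all_eq_true] at h1
  have h2 := h1 (K - 4) (List.mem_range.2 (by omega))
  have e : 4 + (K - 4) = K := by omega
  rw [e] at h2
  unfold checkK at h2
  rw [Bool.and_eq_true, Bool.and_eq_true] at h2
  obtain ⟨⟨h3, h4⟩, h5⟩ := h2
  have h3' := of_decide_eq_true h3
  have h5' := of_decide_eq_true h5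
  rw [MnB_eq, bin_eq] at h5'
  rcases Nat.lt_or_ge n (n1 K) with h | h
  · rw [List.all_eq_true] at h4
    have h6 := h4 (n - (4 * K + 3)) (List.mem_range.2 (by omega))
    have h7 := of_decide_eq_true h6
    have e2 : 4 * K + 3 + (n - (4 * K + 3)) = n := by omega
    rw [e2, MnB_eq, bin_eq] at h7
    exact ⟨2, by omega, h7⟩
  · exact large_n (by omega) h3' h h5'

/-! ## The conclusion -/

lemma X_all {K : ℕ} (hK : 18 ≤ K) (y : ℕ) (hy : K + 1 ≤ y) (hy2 : 2 * (K + y) + 3 ≤ 5 * K) :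
    X K y := by
  induction y, hy using Nat.le_induction with
  | base => exact X_base hK
  | succ y hy ih => exact X_step hK hy (by omega) (ih (by omega))

lemma large_K {K n : ℕ} (hK : 18 ≤ K) (hn : 4 * K + 3 ≤ n) :
    ∃ v ≤ n, Mn n K ≤ v * (n - v).choose (2 * K - 1) := by
  rcases Nat.lt_or_ge n (2 * ((5 * K - 1) / 2)) with h | h
  · refine ⟨2, by omega, ?_⟩
    rcases Nat.even_or_odd n with he | ho
    · obtain ⟨m, rfl⟩ := he
      have hX : X K (m - 1 - K) := X_all hK _ (by omega) (by omega)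
      have := X_even (by omega) hX
      have e : 2 * (K + (m - 1 - K)) + 2 = m + m := by omega
      rw [e] at this
      exact this
    · obtain ⟨m, rfl⟩ := ho
      have hX : X K (m - K) := X_all hK _ (by omega) (by omega)
      have := X_odd (by omega) (by omega) hX
      have e : 2 * (K + (m - K)) + 1 = 2 * m + 1 := by omega
      rw [e] at this
      exact this
  · exact large_n (n1 := 2 * ((5 * K - 1) / 2)) (by omega) (by omega) h
      (ratio_n1 hK (by omega) (by omega))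

/-- The balanced construction is not optimal for `n ≥ 2k + 3`, `k ≥ 8`. -/
theorem m2_lt_N {n k : ℕ} (hk : Even k) (hk8 : 8 ≤ k) (hn : 2 * k + 3 ≤ n) :
    m2 n k < N n k := by
  obtain ⟨K, rfl⟩ := hk
  rw [← two_mul] at *
  have hex : ∃ v ≤ n, Mn n K ≤ v * (n - v).choose (2 * K - 1) := by
    rcases Nat.lt_or_ge K 18 with h | h
    · exact small_K (by omega) h (by omega)
    · exact large_K h (by omega)
  obtain ⟨v, hv, hle⟩ := hex
  have h1 := prod_le_N (n := n) (k := 2 * K) (v := v) (by omega) hv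
  have h2 := m2_succ n K
  omega

end H75MP939
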