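import Pool.Agent.Lib.MP_939498_co.h75E

/-!
# The cases `k = 2`, `k = 4`, `k = 6`
-/

open Finset

namespace H75MP939

/-- For `k = 2` the balanced construction is optimal for all `n`. -/
theorem N_two (n : ℕ) : N n 2 = m2 n 2 := by
  classical
  apply le_antisymm _ (m2_le_N n 2)
  apply N_le
  intro a ha
  set P : Finset (Fin n) := univ.filter (fun i => 0 < a i) with hP
  have hsub : (Z n 2 a) ⊆ insert ∅ ((univ : Finset (Finset (Fin n))).filter
      (fun S => (S ∩ P).card = 1 ∧ (S ∩ Pᶜ).card = 1)) := by
    intro S hS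
    rw [mem_Z] at hS
    rw [Finset.mem_insert, Finset.mem_filter]
    by_cases hS0 : S = ∅
    · exact Or.inl hS0
    right
    refine ⟨Finset.mem_univ _, ?_⟩
    have h4 := card_inter_add P S
    have hne : S.Nonempty := Finset.nonempty_iff_ne_empty.2 hS0
    have h1 : (S ∩ P).card ≠ 0 := by
      intro h
      rw [Finset.card_eq_zero] at h
      have : ∑ i ∈ S, a i < 0 := by
        apply Finset.sum_neg _ hne
        intro i hi
        by_contra hcon
        have hpos : 0 < a i := lt_of_le_of_ne (not_lt.1 hcon) (ha i).symm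
        have : i ∈ S ∩ P := by
          rw [Finset.mem_inter, hP, Finset.mem_filter]
          exact ⟨hi, Finset.mem_univ _, hpos⟩
        rw [h] at this
        exact absurd this (Finset.notMem_empty _)
      rw [hS.2] at this
      exact lt_irrefl _ this
    have h2 : (S ∩ Pᶜ).card ≠ 0 := by
      intro h
      rw [Finset.card_eq_zero] at h
      have : 0 < ∑ i ∈ S, a i := by
        apply Finset.sum_pos _ hne
        intro i hi
        by_contra hcon
        have : i ∈ S ∩ Pᶜ := by
          rw [Finset.mem_inter, Finset.mem_compl, hP, Finset.mem_filter]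
          exact ⟨hi, fun h' => hcon h'.2⟩
        rw [h] at this
        exact absurd this (Finset.notMem_empty _)
      rw [hS.2] at this
      exact lt_irrefl _ this
    omega
  refine (Finset.card_le_card hsub).trans ((Finset.card_insert_le _ _).trans ?_)
  rw [card_type]
  have h5 : P.card + (Pᶜ).card = n := by
    rw [Finset.card_compl, Fintype.card_fin]
    have := Finset.card_le_univ P
    rw [Fintype.card_fin] at this
    omega
  have h6 := choose_mul_balance P.card (Pᶜ).card 1
  rw [h5] at h6
  have h7 : m2 n 2 = ((n + 1) / 2).choose 1 * (n / 2).choose 1 := by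
    unfold m2
    simp
  rw [h7]
  omega

/-- The check for `K = 2, 3`. -/
def check23 (K a b : ℕ) : Bool :=
  (List.range (b - a)).all (fun j =>
    decide (MnB (a + j) K ≤ ((a + j) / (2 * K)) * bin (a + j - (a + j) / (2 * K)) (2 * K - 1))) &&
  decide (MnB b K * (2 * K) ^ (2 * K - 1) ≤ (2 * K - 1) ^ (2 * K - 1) * bin b (2 * K))

lemma small23 {K a b n : ℕ} (hK : 1 ≤ K) (hab : 2 * K ≤ b) (hc : check23 K a b = true)
    (hn : a ≤ n) : m2 n (2 * K) < N n (2 * K) := by
  unfold check23 at hc
  rw [Bool.and_eq_true] at hc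
  obtain ⟨h4, h5⟩ := hc
  have h5' := of_decide_eq_true h5
  rw [MnB_eq, bin_eq] at h5'
  have hex : ∃ v ≤ n, Mn n K ≤ v * (n - v).choose (2 * K - 1) := by
    rcases Nat.lt_or_ge n b with h | h
    · rw [List.all_eq_true] at h4
      have h6 := h4 (n - a) (List.mem_range.2 (by omega))
      have h7 := of_decide_eq_true h6
      have e2 : a + (n - a) = n := by omega
      rw [e2, MnB_eq, bin_eq] at h7
      exact ⟨n / (2 * K), Nat.div_le_self _ _, h7⟩
    · exact large_n hK hab h h5'
  obtain ⟨v, hv, hle⟩ := hex
  have h1 := prod_le_N (n := n) (k := 2 * K) (v := v) (by omega) hv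
  have h2 := m2_succ n K
  omega

theorem m2_lt_N_four {n : ℕ} (hn : 13 ≤ n) : m2 n 4 < N n 4 :=
  small23 (K := 2) (a := 13) (b := 25) (by norm_num) (by norm_num) (by decide +kernel) hn

theorem m2_lt_N_six {n : ℕ} (hn : 16 ≤ n) : m2 n 6 < N n 6 :=
  small23 (K := 3) (a := 16) (b := 23) (by norm_num) (by norm_num) (by decide +kernel) hn

end H75MP939
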